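import Mathlib
import Pool.Agent.H15.G.R_seed8.H932R5.Simplex

set_option autoImplicit false

/-!
# The base case: points on a coordinate axis
-/

namespace Pool.Agent.H932R5

section Div

open Polynomial

variable {R : Type*} [CommRing R]

/-- The polynomials whose coefficient of `y ^ l` is divisible by `g ^ (m - l)` for `l < m`. -/
noncomputable def divIdeal (g : R[X]) (m : ℕ) : Ideal R[X][X] where
  carrier := {f | ∀ l < m, g ^ (m - l) ∣ f.coeff l}
  zero_mem' := by
    intro l _
    simp
  add_mem' := by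
    intro a b ha hb l hl
    rw [coeff_add]
    exact dvd_add (ha l hl) (hb l hl)
  smul_mem' := by
    intro c a ha l hl
    rw [smul_eq_mul, coeff_mul]
    refine Finset.dvd_sum fun p hp => ?_
    have hp := Finset.HasAntidiagonal.mem_antidiagonal.1 hp
    refine Dvd.dvd.mul_left ?_ _
    exact (pow_dvd_pow g (by omega)).trans (ha p.2 (by omega))

theorem span_pow_le_divIdeal (g : R[X]) (m : ℕ) :
    (Ideal.span {X, C g} : Ideal R[X][X]) ^ m ≤ divIdeal g m := by
  induction m with
  | zero =>
    intro f _ l hl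
    omega
  | succ m ih =>
    rw [Ideal.IsTwoSided.pow_succ, Ideal.mul_le]
    intro a ha b hb
    obtain ⟨u, v, rfl⟩ := Ideal.mem_span_pair.1 ha
    have hb' := ih hb
    have h1 : X * b ∈ divIdeal g (m + 1) := by
      intro l hl
      rcases l with _ | l
      · simp
      · rw [coeff_X_mul]
        have := hb' l (by omega)
        rwa [show m + 1 - (l + 1) = m - l by omega]
    have h2 : C g * b ∈ divIdeal g (m + 1) := by
      intro l hl
      rw [coeff_C_mul]
      rcases Nat.lt_or_ge l m with h | h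
      · rw [show m + 1 - l = (m - l) + 1 by omega, pow_succ']
        exact mul_dvd_mul_left _ (hb' l h)
      · rw [show m + 1 - l = 1 by omega, pow_one]
        exact dvd_mul_right _ _
    have : (u * X + v * C g) * b = u * (X * b) + v * (C g * b) := by ring
    rw [this]
    exact Ideal.add_mem _ (Ideal.mul_mem_left _ _ h1) (Ideal.mul_mem_left _ _ h2)

end Div

variable {K : Type*} [Field K] {E n : ℕ} {R : Type*} [CommRing R]

/-- Separation of the variable `x_0` and of the total degree in the other variables. -/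
noncomputable def th (φ : K →+* R) (y : Fin (E + 1) → R) :
    MvPolynomial (Fin (E + 1)) K →+* Polynomial (Polynomial R) :=
  MvPolynomial.eval₂Hom ((Polynomial.C.comp Polynomial.C).comp φ)
    (fun k : Fin (E + 1) => (if k = 0 then Polynomial.C Polynomial.X
      else Polynomial.C (Polynomial.C (y k)) * Polynomial.X : Polynomial (Polynomial R)))

variable (φ : K →+* R) (y : Fin (E + 1) → R)

theorem th_C (c : K) : th φ y (MvPolynomial.C c) = Polynomial.C (Polynomial.C (φ c)) := by
  simp [th]

theorem th_X0 : th φ y (MvPolynomial.X 0) = Polynomial.C Polynomial.X := by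
  simp [th]

theorem th_X {k : Fin (E + 1)} (h : k ≠ 0) : th φ y (MvPolynomial.X k) =
    Polynomial.C (Polynomial.C (y k)) * Polynomial.X := by
  simp [th, h]

theorem ev_th (f : MvPolynomial (Fin (E + 1)) K) :
    Polynomial.eval (y 0) (Polynomial.eval 1 (th φ y f)) = MvPolynomial.eval₂Hom φ y f := by
  have h : (((Polynomial.evalRingHom (y 0)).comp
      (Polynomial.evalRingHom (1 : Polynomial R))).comp (th φ y)) =
      MvPolynomial.eval₂Hom φ y := by
    refine MvPolynomial.ringHom_ext (fun c => ?_) fun i => ?_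
    · simp only [RingHom.comp_apply, th_C, Polynomial.coe_evalRingHom,
        Polynomial.eval_C, MvPolynomial.eval₂Hom_C]
    · by_cases h : i = 0
      · subst h
        simp only [RingHom.comp_apply, th_X0, Polynomial.coe_evalRingHom,
          Polynomial.eval_C, Polynomial.eval_X, MvPolynomial.eval₂Hom_X']
      · simp only [RingHom.comp_apply, th_X φ y h, Polynomial.coe_evalRingHom,
          Polynomial.eval_C, Polynomial.eval_X, Polynomial.eval_mul, MvPolynomial.eval₂Hom_X',
          mul_one]
  exact congrArg (fun φ : MvPolynomial (Fin (E + 1)) K →+* R => φ f) h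

theorem th_monomial (α : Fin (E + 1) →₀ ℕ) : ∃ u : R,
    th φ y (MvPolynomial.monomial α 1) =
      Polynomial.C (Polynomial.X ^ α 0 * Polynomial.C u) *
        Polynomial.X ^ (∑ j : Fin E, α j.succ) := by
  refine ⟨∏ j : Fin E, (y j.succ) ^ α j.succ, ?_⟩
  rw [MvPolynomial.monomial_eq, MvPolynomial.C_1, one_mul,
    Finsupp.prod_fintype _ _ (fun i => pow_zero _), map_prod, Fin.prod_univ_succ, map_pow, th_X0]
  have h : ∀ j : Fin E, th φ y (MvPolynomial.X j.succ ^ α j.succ) =
      Polynomial.C (Polynomial.C (y j.succ ^ α j.succ)) * Polynomial.X ^ α j.succ := by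
    intro j
    rw [map_pow, th_X φ y (Fin.succ_ne_zero j), mul_pow, Polynomial.C_pow, Polynomial.C_pow]
  simp only [h]
  rw [Finset.prod_mul_distrib, Finset.prod_pow_eq_pow_sum, map_mul, Polynomial.C_pow, map_prod,
    map_prod]
  ring

theorem th_coeff (f : MvPolynomial (Fin (E + 1)) K) (e a : ℕ)
    (h : ∀ α, MvPolynomial.coeff α f ≠ 0 → ¬ (∑ j : Fin E, α j.succ = e ∧ α 0 = a)) :
    ((th φ y f).coeff e).coeff a = 0 := by
  rw [f.as_sum, map_sum, Polynomial.finsetSum_coeff, Polynomial.finsetSum_coeff]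
  refine Finset.sum_eq_zero fun α hα => ?_
  obtain ⟨u, hu⟩ := th_monomial φ y α
  have h1 : MvPolynomial.monomial α (MvPolynomial.coeff α f) =
      MvPolynomial.C (MvPolynomial.coeff α f) * MvPolynomial.monomial α 1 := by
    rw [MvPolynomial.C_mul_monomial, mul_one]
  rw [h1, map_mul, hu, th_C]
  have h2 := h α (MvPolynomial.mem_support_iff.1 hα)
  rw [← mul_assoc, ← Polynomial.C_mul, Polynomial.coeff_C_mul, Polynomial.coeff_X_pow]
  by_cases h3 : e = ∑ j : Fin E, α j.succ
  · rw [if_pos h3, mul_one, Polynomial.coeff_C_mul, Polynomial.coeff_mul_C,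
      Polynomial.coeff_X_pow, if_neg, zero_mul, mul_zero]
    intro h4
    exact h2 ⟨h3.symm, h4.symm⟩
  · rw [if_neg h3, mul_zero, Polynomial.coeff_zero]

theorem th_eq_zero [CharZero K] {w : Fin n → ℕ} {f : MvPolynomial (Fin (E + 1)) K}
    (hf : f ∈ Z w (fun (i : Fin n) (k : Fin (E + 1)) => if k = 0 then ((i : ℕ) : K) else 0))
    (hM : ∀ α, MvPolynomial.coeff α f ≠ 0 → α 0 + n * ∑ j : Fin E, α j.succ < ∑ i, w i) :
    th φ y f = 0 := by
  classical
  rw [mem_Z] at hf
  obtain ⟨c, hc⟩ : ∃ c : Fin n → R, ∀ i, c i = φ ((i : ℕ) : K) := ⟨_, fun _ => rfl⟩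
  have h1 : ∀ i, ∀ e < w i, (Polynomial.X - Polynomial.C (c i)) ^ (w i - e) ∣
      (th φ y f).coeff e := by
    intro i
    have h2 := Ideal.mem_map_of_mem (th φ y) (hf i)
    rw [Ideal.map_pow] at h2
    have h3 : Ideal.map (th φ y) (pt (fun k : Fin (E + 1) => if k = 0 then ((i : ℕ) : K) else 0)) ≤
        Ideal.span {Polynomial.X, Polynomial.C (Polynomial.X - Polynomial.C (c i))} := by
      unfold pt
      rw [Ideal.map_span, Ideal.span_le]
      rintro _ ⟨_, ⟨k, rfl⟩, rfl⟩
      show th φ y (MvPolynomial.X k - MvPolynomial.C (if k = 0 then ((i : ℕ) : K) else 0)) ∈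
        Ideal.span {Polynomial.X, Polynomial.C (Polynomial.X - Polynomial.C (c i))}
      by_cases hk : k = 0
      · subst hk
        rw [if_pos rfl, map_sub (th φ y), th_X0, th_C, ← hc, ← Polynomial.C_sub]
        exact Ideal.subset_span (Or.inr rfl)
      · rw [if_neg hk, MvPolynomial.C_0, sub_zero, th_X φ y hk]
        exact Ideal.mul_mem_left _ _ (Ideal.subset_span (Or.inl rfl))
    exact span_pow_le_divIdeal _ _ (Ideal.pow_right_mono h3 (w i) h2)
  refine Polynomial.ext fun e => ?_
  rw [Polynomial.coeff_zero]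
  have hdvd : ∏ i, (Polynomial.X - Polynomial.C (c i)) ^ (w i - e) ∣ (th φ y f).coeff e := by
    refine Finset.prod_dvd_of_coprime ?_ fun i _ => ?_
    · intro i _ i' _ hii
      refine IsCoprime.pow (Polynomial.isCoprime_X_sub_C_of_isUnit_sub ?_)
      rw [hc, hc, ← map_sub]
      refine (isUnit_iff_ne_zero.2 ?_).map φ
      rw [sub_ne_zero]
      intro h
      exact hii (Fin.ext (by exact_mod_cast h))
    · rcases Nat.lt_or_ge e (w i) with h | h
      · exact h1 i e h
      · rw [Nat.sub_eq_zero_of_le h, pow_zero]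
        exact one_dvd _
  have hmonic : (∏ i, (Polynomial.X - Polynomial.C (c i)) ^ (w i - e)).Monic :=
    Polynomial.monic_prod_of_monic _ _ fun i _ => (Polynomial.monic_X_sub_C _).pow _
  by_contra hne
  have hnt : Nontrivial R := by
    by_contra h
    rw [not_nontrivial_iff_subsingleton] at h
    exact hne (Polynomial.ext fun a => Subsingleton.elim _ _)
  refine hmonic.not_dvd_of_degree_lt hne ?_ hdvd
  have hdeg : (∏ i, (Polynomial.X - Polynomial.C (c i)) ^ (w i - e)).degree =
      ((∑ i, (w i - e) : ℕ) : WithBot ℕ) := by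
    rw [Polynomial.degree_eq_natDegree hmonic.ne_zero,
      Polynomial.natDegree_prod_of_monic _ _ fun i _ => (Polynomial.monic_X_sub_C _).pow _]
    have hs : ∀ i, ((Polynomial.X - Polynomial.C (c i)) ^ (w i - e)).natDegree = w i - e := by
      intro i
      rw [(Polynomial.monic_X_sub_C _).natDegree_pow, Polynomial.natDegree_X_sub_C, mul_one]
    simp only [hs]
  rw [hdeg, Polynomial.degree_lt_iff_coeff_zero]
  intro a ha
  refine th_coeff φ y f e a fun α hα hcon => ?_
  have h5 := hM α hα
  rw [hcon.1, hcon.2] at h5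
  have h6 : ∑ i, w i ≤ ∑ i, ((w i - e) + e) := Finset.sum_le_sum fun i _ => by omega
  rw [Finset.sum_add_distrib, Finset.sum_const, Finset.card_univ, Fintype.card_fin,
    smul_eq_mul] at h6
  omega

omit φ y in
/-- No nonzero polynomial supported in the simplex of the staircase vanishes at fat points on
the coordinate axis. -/
theorem Full.base [CharZero K] (w : Fin n → ℕ) :
    Full K w {p : Fin (E + 1) →₀ ℕ | p 0 + n * ∑ j : Fin E, p j.succ < ∑ i, w i} := by
  refine ⟨fun i k => if k = 0 then ((i : ℕ) : K) else 0, fun f hf hM => ?_⟩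
  have h := th_eq_zero (MvPolynomial.C (R := K) (σ := Fin (E + 1)))
    (MvPolynomial.X : Fin (E + 1) → MvPolynomial (Fin (E + 1)) K) hf hM
  have h1 := ev_th (MvPolynomial.C (R := K) (σ := Fin (E + 1)))
    (MvPolynomial.X : Fin (E + 1) → MvPolynomial (Fin (E + 1)) K) f
  rw [h, Polynomial.eval_zero, Polynomial.eval_zero] at h1
  rw [h1]
  exact (MvPolynomial.eval₂_eta f).symm

end Pool.Agent.H932R5
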