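import Mathlib
import Pool.Agent.H15.G.R_seed8.H932R5.Open

set_option autoImplicit false

/-!
# Homogeneous forms and dimension counts
-/

namespace Pool.Agent.H932R5

open MvPolynomial

variable {K : Type*} [Field K] {E n : ℕ}

theorem card_dg (E m : ℕ) : (dg E m).card = (m + E).choose (E + 1) := by
  classical
  induction m with
  | zero =>
    rw [zero_add, Nat.choose_succ_self, Finset.card_eq_zero]
    ext s
    rw [mem_dg]
    simp
  | succ m ih =>
    have h1 : dg E (m + 1) = dg E m ∪
        (Finset.univ : Finset (Fin (E + 1))).finsuppAntidiag m := by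
      ext s
      rw [mem_dg, Finset.mem_union, mem_dg, Finset.mem_finsuppAntidiag, Finsupp.degree_eq_sum]
      have h2 : s.support ⊆ Finset.univ := Finset.subset_univ _
      have h4 : Finset.univ.sum (⇑s) = ∑ i, s i := rfl
      rw [h4]
      constructor
      · intro h
        rcases Nat.lt_or_ge (∑ i, s i) m with h3 | h3
        · exact Or.inl h3
        · exact Or.inr ⟨by omega, h2⟩
      · rintro (h | ⟨h, _⟩)
        · omega
        · omega
    have h3 : Disjoint (dg E m) ((Finset.univ : Finset (Fin (E + 1))).finsuppAntidiag m) := by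
      rw [Finset.disjoint_left]
      intro s hs hs'
      rw [mem_dg, Finsupp.degree_eq_sum] at hs
      rw [Finset.mem_finsuppAntidiag] at hs'
      have h4 : Finset.univ.sum (⇑s) = ∑ i, s i := rfl
      rw [h4] at hs'
      omega
    rw [h1, Finset.card_union_of_disjoint h3, ih, Finset.card_finsuppAntidiag_nat_eq_choose,
      Finset.card_univ, Fintype.card_fin]
    have e1 : E + 1 + m - 1 = m + E := by omega
    have e2 : m + 1 + E = (m + E) + 1 := by omega
    rw [e1, e2, Nat.choose_succ_succ, add_comm]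
    congr 1
    exact Nat.choose_symm_add

theorem card_Cnd (w : Fin n → ℕ) : Fintype.card (Cnd E w) = ∑ i, (w i + E).choose (E + 1) := by
  rw [Fintype.card_sigma]
  refine Finset.sum_congr rfl fun i _ => ?_
  rw [Fintype.card_coe, card_dg]

/-- Dehomogenization. -/
noncomputable def deh (K : Type*) [Field K] (E : ℕ) :
    MvPolynomial (Fin (E + 2)) K →ₐ[K] MvPolynomial (Fin (E + 1)) K :=
  aeval (Fin.cons 1 X : Fin (E + 2) → MvPolynomial (Fin (E + 1)) K)

theorem deh_X0 : deh K E (X 0) = 1 := by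
  simp [deh]

theorem deh_X (j : Fin (E + 1)) : deh K E (X j.succ) = X j := by
  simp [deh]

theorem deh_C (c : K) : deh K E (C c) = C c := (deh K E).commutes c

theorem deh_monomial (α : Fin (E + 2) →₀ ℕ) (c : K) :
    deh K E (monomial α c) = monomial α.tail c := by
  rw [monomial_eq, map_mul, deh_C, Finsupp.prod_fintype _ _ (fun i => pow_zero _), map_prod,
    Fin.prod_univ_succ, map_pow, deh_X0, one_pow, one_mul, monomial_eq,
    Finsupp.prod_fintype _ _ (fun i => pow_zero _)]
  congr 1
  refine Finset.prod_congr rfl fun j _ => ?_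
  rw [map_pow, deh_X, Finsupp.tail_apply]

theorem degree_split (α : Fin (E + 2) →₀ ℕ) :
    Finsupp.degree α = α 0 + Finsupp.degree α.tail := by
  rw [Finsupp.degree_eq_sum, Finsupp.degree_eq_sum, Fin.sum_univ_succ]
  rfl

theorem coeff_deh {d : ℕ} {F : MvPolynomial (Fin (E + 2)) K} (hF : F.IsHomogeneous d)
    (s : Fin (E + 1) →₀ ℕ) :
    coeff s (deh K E F) =
      if Finsupp.degree s ≤ d then coeff (Finsupp.cons (d - Finsupp.degree s) s) F else 0 := by
  classical
  have h1 : deh K E F = ∑ α ∈ F.support, monomial α.tail (coeff α F) := by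
    conv_lhs => rw [F.as_sum, map_sum]
    exact Finset.sum_congr rfl fun α _ => deh_monomial α _
  have hdeg : ∀ α ∈ F.support, Finsupp.degree α = d := by
    intro α hα
    by_contra h
    exact (mem_support_iff.1 hα) (hF.coeff_eq_zero h)
  have hterm : ∀ α ∈ F.support, α.tail = s →
      Finsupp.degree s ≤ d ∧ α = Finsupp.cons (d - Finsupp.degree s) s := by
    intro α hα h
    have h2 := hdeg α hα
    rw [degree_split, h] at h2
    refine ⟨by omega, ?_⟩
    have h3 : d - Finsupp.degree s = α 0 := by omega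
    rw [h3, ← h, Finsupp.cons_tail]
  rw [h1, coeff_sum]
  simp only [coeff_monomial]
  by_cases hs : Finsupp.degree s ≤ d
  · rw [if_pos hs]
    by_cases hm : Finsupp.cons (d - Finsupp.degree s) s ∈ F.support
    · rw [Finset.sum_eq_single (Finsupp.cons (d - Finsupp.degree s) s)]
      · rw [if_pos (Finsupp.tail_cons _ _)]
      · intro α hα hne
        rw [if_neg]
        intro h
        exact hne (hterm α hα h).2
      · intro h
        exact absurd hm h
    · rw [notMem_support_iff.1 hm]
      refine Finset.sum_eq_zero fun α hα => ?_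
      rw [if_neg]
      intro h
      rw [(hterm α hα h).2] at hα
      exact hm hα
  · rw [if_neg hs]
    refine Finset.sum_eq_zero fun α hα => ?_
    rw [if_neg]
    intro h
    exact hs (hterm α hα h).1

theorem deh_inj {d : ℕ} {F : MvPolynomial (Fin (E + 2)) K} (hF : F.IsHomogeneous d)
    (h : deh K E F = 0) : F = 0 := by
  by_contra hne
  obtain ⟨α, hα⟩ := ne_zero_iff.1 hne
  have hdeg : Finsupp.degree α = d := by
    by_contra h
    exact hα (hF.coeff_eq_zero h)
  have h1 := coeff_deh hF α.tail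
  rw [degree_split] at hdeg
  rw [h, coeff_zero, if_pos (by omega)] at h1
  have h2 : d - Finsupp.degree α.tail = α 0 := by omega
  rw [h2, Finsupp.cons_tail] at h1
  exact hα h1.symm

/-- The exponents of degree at most `d`. -/
def Td (E d : ℕ) : Set (Fin (E + 1) →₀ ℕ) := {s | Finsupp.degree s ≤ d}

theorem coe_dg (E d : ℕ) : (↑(dg E (d + 1)) : Set (Fin (E + 1) →₀ ℕ)) = Td E d := by
  ext s
  rw [Finset.mem_coe, mem_dg]
  exact Nat.lt_succ_iff

theorem deh_mem {d : ℕ} {F : MvPolynomial (Fin (E + 2)) K} (hF : F.IsHomogeneous d) :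
    deh K E F ∈ mspan K (Td E d) := by
  rw [mem_mspan]
  intro s hs
  rw [coeff_deh hF] at hs
  by_contra h
  exact hs (if_neg h)

theorem deh_surj {d : ℕ} {f : MvPolynomial (Fin (E + 1)) K} (hf : f ∈ mspan K (Td E d)) :
    ∃ F : MvPolynomial (Fin (E + 2)) K, F.IsHomogeneous d ∧ deh K E F = f := by
  classical
  rw [mem_mspan] at hf
  refine ⟨∑ s ∈ f.support, monomial (Finsupp.cons (d - Finsupp.degree s) s) (coeff s f),
    IsHomogeneous.sum _ _ _ fun s hs => ?_, ?_⟩
  · refine isHomogeneous_monomial _ ?_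
    have h1 : Finsupp.degree s ≤ d := hf s (mem_support_iff.1 hs)
    rw [degree_split, Finsupp.tail_cons, Finsupp.cons_zero]
    omega
  · rw [map_sum]
    conv_rhs => rw [f.as_sum]
    refine Finset.sum_congr rfl fun s _ => ?_
    rw [deh_monomial, Finsupp.tail_cons]

/-- The ideal of the point `(1 : P 0 : … : P E)` of projective space. -/
noncomputable def hI (P : Fin (E + 1) → K) : Ideal (MvPolynomial (Fin (E + 2)) K) :=
  Ideal.span (Set.range fun j : Fin (E + 1) => X j.succ - C (P j) * X 0)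

/-- Translation, homogeneous version. -/
noncomputable def tr (P : Fin (E + 1) → K) :
    MvPolynomial (Fin (E + 2)) K →ₐ[K] MvPolynomial (Fin (E + 2)) K :=
  aeval (Fin.cons (X 0) (fun j => X j.succ + C (P j) * X 0) :
    Fin (E + 2) → MvPolynomial (Fin (E + 2)) K)

theorem tr_X0 (P : Fin (E + 1) → K) : tr P (X 0) = X 0 := by
  simp [tr]

theorem tr_X (P : Fin (E + 1) → K) (j : Fin (E + 1)) :
    tr P (X j.succ) = X j.succ + C (P j) * X 0 := by
  simp [tr]

theorem tr_C (P : Fin (E + 1) → K) (c : K) : tr P (C c) = C c := (tr P).commutes c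

theorem tr_tr (P : Fin (E + 1) → K) (F : MvPolynomial (Fin (E + 2)) K) :
    tr (fun j => - P j) (tr P F) = F := by
  have h : (tr (fun j => - P j)).comp (tr P) = AlgHom.id K _ := by
    refine MvPolynomial.algHom_ext fun i => ?_
    rw [AlgHom.comp_apply, AlgHom.id_apply]
    refine Fin.cases ?_ (fun j => ?_) i
    · rw [tr_X0, tr_X0]
    · rw [tr_X, map_add, map_mul, tr_X, tr_C, tr_X0, C_neg]
      ring
  exact AlgHom.congr_fun h F

theorem tr_homog {P : Fin (E + 1) → K} {d : ℕ} {F : MvPolynomial (Fin (E + 2)) K}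
    (hF : F.IsHomogeneous d) : (tr P F).IsHomogeneous d := by
  have h : (tr P F).IsHomogeneous (1 * d) := by
    unfold tr
    refine hF.aeval _ fun i => ?_
    refine Fin.cases ?_ (fun j => ?_) i
    · rw [Fin.cons_zero]
      exact isHomogeneous_X K _
    · rw [Fin.cons_succ]
      exact (isHomogeneous_X K _).add ((isHomogeneous_X K _).C_mul _)
  rwa [one_mul] at h

theorem deh_tr (P : Fin (E + 1) → K) (F : MvPolynomial (Fin (E + 2)) K) :
    deh K E (tr P F) = shift P (deh K E F) := by
  have h : (deh K E).comp (tr P) = (shift P).comp (deh K E) := by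
    refine MvPolynomial.algHom_ext fun i => ?_
    rw [AlgHom.comp_apply, AlgHom.comp_apply]
    refine Fin.cases ?_ (fun j => ?_) i
    · rw [tr_X0, deh_X0, map_one]
    · rw [tr_X, map_add, map_mul, deh_X, deh_X0, deh_C, shift_X, mul_one]
  exact AlgHom.congr_fun h F

theorem mem_span_succ {m : ℕ} {G : MvPolynomial (Fin (E + 2)) K}
    (h : ∀ α, coeff α G ≠ 0 → m ≤ Finsupp.degree α.tail) :
    G ∈ (Ideal.span (Set.range fun j : Fin (E + 1) => (X j.succ :
      MvPolynomial (Fin (E + 2)) K))) ^ m := by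
  rw [G.as_sum]
  refine Ideal.sum_mem _ fun α hα => ?_
  have h1 := h α (mem_support_iff.1 hα)
  have h2 : monomial α (coeff α G) = (C (coeff α G) * X 0 ^ α 0) *
      ∏ j : Fin (E + 1), X j.succ ^ α j.succ := by
    rw [monomial_eq, Finsupp.prod_fintype _ _ (fun i => pow_zero _), Fin.prod_univ_succ]
    ring
  rw [h2]
  refine Ideal.mul_mem_left _ _ (Ideal.pow_le_pow_right h1 ?_)
  rw [Finsupp.degree_eq_sum]
  have h3 : ∀ (t : Finset (Fin (E + 1))),
      ∏ j ∈ t, (X j.succ : MvPolynomial (Fin (E + 2)) K) ^ α j.succ ∈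
        (Ideal.span (Set.range fun j : Fin (E + 1) => (X j.succ :
          MvPolynomial (Fin (E + 2)) K))) ^ (∑ j ∈ t, α j.succ) := by
    intro t
    classical
    induction t using Finset.induction_on with
    | empty => simp
    | insert a t ha ih =>
      rw [Finset.prod_insert ha, Finset.sum_insert ha, pow_add]
      exact Ideal.mul_mem_mul (Ideal.pow_mem_pow (Ideal.subset_span (Set.mem_range_self a)) _) ih
  exact h3 Finset.univ

theorem mem_hI_iff {P : Fin (E + 1) → K} {m d : ℕ} {F : MvPolynomial (Fin (E + 2)) K}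
    (hF : F.IsHomogeneous d) : F ∈ (hI P) ^ m ↔ deh K E F ∈ (pt P) ^ m := by
  constructor
  · intro h
    have h1 := Ideal.mem_map_of_mem (deh K E) h
    rw [Ideal.map_pow] at h1
    refine Ideal.pow_right_mono ?_ m h1
    unfold hI
    rw [Ideal.map_span, Ideal.span_le]
    rintro _ ⟨_, ⟨k, rfl⟩, rfl⟩
    show deh K E (X k.succ - C (P k) * X 0) ∈ pt P
    rw [map_sub, map_mul, deh_X, deh_C, deh_X0, mul_one]
    exact Ideal.subset_span ⟨k, rfl⟩
  · intro h
    rw [mem_pt_pow_iff] at h
    have hG : (tr P F).IsHomogeneous d := tr_homog hF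
    have h1 : tr P F ∈ (Ideal.span (Set.range fun j : Fin (E + 1) => (X j.succ :
        MvPolynomial (Fin (E + 2)) K))) ^ m := by
      refine mem_span_succ fun α hα => ?_
      by_contra hlt
      have hdeg : Finsupp.degree α = d := by
        by_contra h
        exact hα (hG.coeff_eq_zero h)
      rw [degree_split] at hdeg
      have h2 := coeff_deh hG α.tail
      rw [deh_tr, h _ (not_le.1 hlt), if_pos (by omega)] at h2
      have h3 : d - Finsupp.degree α.tail = α 0 := by omega
      rw [h3, Finsupp.cons_tail] at h2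
      exact hα h2.symm
    have h2 := Ideal.mem_map_of_mem (tr (fun j => - P j)) h1
    rw [tr_tr, Ideal.map_pow] at h2
    refine Ideal.pow_right_mono ?_ m h2
    rw [Ideal.map_span, Ideal.span_le]
    rintro _ ⟨_, ⟨k, rfl⟩, rfl⟩
    show tr (fun j => - P j) (X k.succ) ∈ hI P
    rw [tr_X, C_neg, neg_mul, ← sub_eq_add_neg]
    exact Ideal.subset_span ⟨k, rfl⟩

/-- The space of forms of degree `d` vanishing to order `w i` at `P i`. -/
noncomputable def Vd (d : ℕ) (w : Fin n → ℕ) (P : Fin n → Fin (E + 1) → K) :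
    Submodule K (MvPolynomial (Fin (E + 2)) K) :=
  homogeneousSubmodule (Fin (E + 2)) K d ⊓
    Submodule.restrictScalars K (⨅ i : Fin n, (hI (P i)) ^ (w i))

theorem mem_Vd {d : ℕ} {w : Fin n → ℕ} {P : Fin n → Fin (E + 1) → K}
    {F : MvPolynomial (Fin (E + 2)) K} :
    F ∈ Vd d w P ↔ F.IsHomogeneous d ∧ deh K E F ∈ Z w P := by
  unfold Vd
  rw [Submodule.mem_inf, mem_homogeneousSubmodule, Submodule.restrictScalars_mem, Ideal.mem_iInf,
    mem_Z]
  constructor
  · rintro ⟨h1, h2⟩
    exact ⟨h1, fun i => (mem_hI_iff h1).1 (h2 i)⟩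
  · rintro ⟨h1, h2⟩
    exact ⟨h1, fun i => (mem_hI_iff h1).2 (h2 i)⟩

theorem finrank_Vd_eq (d : ℕ) (w : Fin n → ℕ) (P : Fin n → Fin (E + 1) → K) :
    Module.finrank K ↥(Vd d w P) =
      Module.finrank K ↥(mspan K (Td E d) ⊓ Submodule.restrictScalars K (Z w P)) := by
  refine LinearEquiv.finrank_eq (LinearEquiv.ofBijective
    { toFun := fun F => ⟨deh K E F.1, Submodule.mem_inf.2 ⟨deh_mem (mem_Vd.1 F.2).1,
        (mem_Vd.1 F.2).2⟩⟩
      map_add' := fun f g => Subtype.ext (map_add _ _ _)
      map_smul' := fun a f => Subtype.ext (map_smul _ _ _) } ⟨?_, ?_⟩)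
  · intro F G hFG
    have h1 : deh K E F.1 = deh K E G.1 := congrArg Subtype.val hFG
    refine Subtype.ext (sub_eq_zero.1 (deh_inj (d := d) ?_ ?_))
    · exact (mem_Vd.1 F.2).1.sub (mem_Vd.1 G.2).1
    · rw [map_sub, h1, sub_self]
  · rintro ⟨f, hf⟩
    rw [Submodule.mem_inf] at hf
    obtain ⟨F, hF, rfl⟩ := deh_surj hf.1
    exact ⟨⟨F, mem_Vd.2 ⟨hF, hf.2⟩⟩, rfl⟩

end Pool.Agent.H932R5
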