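import Mathlib
import Pool.Agent.H15.G.R_seed8.H932R5.Homog

set_option autoImplicit false

/-!
# Dimensions of the spaces of forms
-/

namespace Pool.Agent.H932R5

open MvPolynomial

variable {K : Type*} [Field K] {E n : ℕ}

theorem li_enum (M : Finset (Fin (E + 1) →₀ ℕ)) :
    LinearIndependent K (fun i => monomial (enumM M i) (1 : K)) := by
  rw [Fintype.linearIndependent_iff]
  intro c hc i
  have h := coeff_sum_enum M c i
  rw [hc, coeff_zero] at h
  exact h.symm

theorem finrank_mspan (M : Finset (Fin (E + 1) →₀ ℕ)) :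
    Module.finrank K ↥(mspan K (↑M : Set (Fin (E + 1) →₀ ℕ))) = M.card := by
  rw [mspan_eq_range, finrank_span_eq_card (li_enum M), Fintype.card_fin]

theorem finite_mspan (M : Finset (Fin (E + 1) →₀ ℕ)) :
    FiniteDimensional K ↥(mspan K (↑M : Set (Fin (E + 1) →₀ ℕ))) := by
  rw [mspan_eq_range]
  exact FiniteDimensional.span_of_finite K (Set.finite_range _)

theorem finrank_of_full {d : ℕ} {w : Fin n → ℕ} {P : Fin n → Fin (E + 1) → K}
    (h : ∀ f ∈ Z w P, (∀ α, coeff α f ≠ 0 → α ∈ Td E d) → f = 0) :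
    Module.finrank K ↥(Vd d w P) = 0 := by
  rw [finrank_Vd_eq]
  have h1 : mspan K (Td E d) ⊓ Submodule.restrictScalars K (Z w P) = ⊥ := by
    rw [eq_bot_iff]
    intro f hf
    rw [Submodule.mem_inf] at hf
    rw [Submodule.mem_bot]
    exact h f hf.2 (mem_mspan.1 hf.1)
  rw [h1, finrank_bot]

theorem finrank_of_rk {d : ℕ} {w : Fin n → ℕ} {P : Fin n → Fin (E + 1) → K} {N : ℕ}
    (v : Fin N → MvPolynomial (Fin (E + 1)) K) (hv : ∀ i, v i ∈ mspan K (Td E d))
    (hli : ∀ c : Fin N → K, ∑ i, c i • v i ∈ Z w P → ∀ i, c i = 0)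
    (hN : N = ∑ i, (w i + E).choose (E + 1)) :
    Module.finrank K ↥(Vd d w P) + ∑ i, (w i + E).choose (E + 1) =
      (d + E + 1).choose (E + 1) := by
  classical
  rw [finrank_Vd_eq]
  rw [← coe_dg] at hv ⊢
  have hfin := finite_mspan (K := K) (dg E (d + 1))
  let L : ↥(mspan K (↑(dg E (d + 1)) : Set (Fin (E + 1) →₀ ℕ))) →ₗ[K] (Cnd E w → K) :=
    (cnd w P).comp (Submodule.subtype _)
  have hL : ∀ f, L f = cnd w P f.1 := fun _ => rfl
  have h1 := LinearMap.finrank_range_add_finrank_ker L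
  rw [finrank_mspan, card_dg] at h1
  have h2 : Module.finrank K (LinearMap.range L) = N := by
    refine le_antisymm ?_ ?_
    · refine (Submodule.finrank_le _).trans ?_
      rw [Module.finrank_fintype_fun_eq_card, card_Cnd, hN]
    · have hli' : LinearIndependent K (fun i => L ⟨v i, hv i⟩) := by
        rw [Fintype.linearIndependent_iff]
        intro c hc
        refine hli c ?_
        rw [mem_Z_iff, map_sum, ← hc]
        exact Finset.sum_congr rfl fun i _ => by rw [map_smul, hL]
      have h5 := finrank_span_eq_card hli'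
      rw [Fintype.card_fin] at h5
      rw [← h5]
      refine Submodule.finrank_mono (Submodule.span_le.2 ?_)
      rintro _ ⟨i, rfl⟩
      exact ⟨_, rfl⟩
  have h3 : Module.finrank K (LinearMap.ker L) = Module.finrank K
      ↥(mspan K (↑(dg E (d + 1)) : Set (Fin (E + 1) →₀ ℕ)) ⊓
        Submodule.restrictScalars K (Z w P)) := by
    refine LinearEquiv.finrank_eq (LinearEquiv.ofBijective
      { toFun := fun f => ⟨f.1.1, Submodule.mem_inf.2 ⟨f.1.2, mem_Z_iff.2 f.2⟩⟩
        map_add' := fun f g => rfl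
        map_smul' := fun a f => rfl } ⟨?_, ?_⟩)
    · intro f g hfg
      have h : f.1.1 = g.1.1 :=
        congrArg (fun z : ↥(mspan K (↑(dg E (d + 1)) : Set (Fin (E + 1) →₀ ℕ)) ⊓
          Submodule.restrictScalars K (Z w P)) => (z : MvPolynomial (Fin (E + 1)) K)) hfg
      exact Subtype.ext (Subtype.ext h)
    · rintro ⟨f, hf⟩
      rw [Submodule.mem_inf] at hf
      exact ⟨⟨⟨f, hf.1⟩, mem_Z_iff.1 hf.2⟩, rfl⟩
  have e : d + 1 + E = d + E + 1 := by ring
  rw [h2, h3, e] at h1
  rw [← hN]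
  omega

end Pool.Agent.H932R5
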