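import Mathlib
import Pool.Agent.H15.G.R_seed8.H932R5.Simplex

set_option autoImplicit false

/-!
# Chains of compressions
-/

namespace Pool.Agent.H932R5

open MvPolynomial

variable {K : Type*} [Field K] {E n : ℕ}

/-- The ratios reachable from `s0`. -/
inductive Up (s0 : ℝ) : ℝ → Prop
  | base : Up s0 s0
  | step (σ : ℝ) (ρ : ℕ) : Up s0 σ → σ ≤ ρ → Up s0 ((ρ : ℝ) ^ 2 / σ)

theorem Up.pos {s0 σ : ℝ} (hs : 0 < s0) (h : Up s0 σ) : 0 < σ := by
  induction h with
  | base => exact hs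
  | step σ ρ _ h2 ih =>
    have : (0 : ℝ) < ρ := lt_of_lt_of_le ih h2
    positivity

theorem nw_nw (a : Fin (E + 1) → ℝ) {j : Fin (E + 1)} (hj : j ≠ 0) (u v u' v' : ℝ) :
    nw (nw a j u v) j u' v' = nw a j u' v' := by
  ext i
  by_cases h0 : i = 0
  · subst h0
    rw [nw_zero _ hj, nw_zero _ hj]
  · by_cases h1 : i = j
    · subst h1
      rw [nw_self, nw_self]
    · rw [nw_other _ h0 h1, nw_other _ h0 h1, nw_other _ h0 h1]

theorem nw_pos {a : Fin (E + 1) → ℝ} (ha : ∀ i, 0 < a i) (j : Fin (E + 1)) {u v : ℝ}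
    (hu : 0 < u) (hv : 0 < v) : ∀ i, 0 < nw a j u v i := by
  intro i
  unfold nw
  by_cases h1 : i = j
  · subst h1
    rw [Function.update_self]
    exact hv
  · rw [Function.update_of_ne h1]
    by_cases h0 : i = 0
    · subst h0
      rw [Function.update_self]
      exact hu
    · rw [Function.update_of_ne h0]
      exact ha i

theorem sqrt_step {σ ρ : ℝ} (_hσ : 0 < σ) (hρ : 0 < ρ) :
    Real.sqrt (ρ ^ 2 / σ) = ρ / Real.sqrt σ := by
  rw [Real.sqrt_div (by positivity), Real.sqrt_sq hρ.le]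

theorem Full.up [Infinite K] [CharZero K] {w : Fin n → ℕ} {a : Fin (E + 1) → ℝ}
    (ha : ∀ i, 0 < a i) {c : ℝ} {j : Fin (E + 1)} (hj : j ≠ 0) {b : ℝ} (hb : 0 < b)
    {s0 σ : ℝ} (hs : 0 < s0) (h : Up s0 σ)
    (hF : Full K w (Sx (nw a j (b / Real.sqrt σ) (b * Real.sqrt σ)) c)) :
    Full K w (Sx (nw a j (b / Real.sqrt s0) (b * Real.sqrt s0)) c) := by
  induction h with
  | base => exact hF
  | step σ ρ h1 h2 ih =>
    refine ih ?_
    have hσ := h1.pos hs
    have hρ : (0 : ℝ) < ρ := lt_of_lt_of_le hσ h2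
    have hρ' : 0 < ρ := by exact_mod_cast hρ
    have hq : 0 < Real.sqrt σ := Real.sqrt_pos.2 hσ
    have hqq : Real.sqrt σ * Real.sqrt σ = σ := Real.mul_self_sqrt hσ.le
    refine Full.sx (nw_pos ha j (by positivity) (by positivity)) hj hρ' ?_ ?_
    · rw [nw_self, nw_zero _ hj]
      have e : (ρ : ℝ) * (b / Real.sqrt σ) = (b * ρ) / Real.sqrt σ := by ring
      rw [e, le_div_iff₀ hq, mul_assoc, hqq]
      exact mul_le_mul_of_nonneg_left h2 hb.le
    · rw [nw_nw _ hj, nw_self, nw_zero _ hj]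
      rw [sqrt_step hσ hρ] at hF
      have e1 : b / (ρ / Real.sqrt σ) = b * Real.sqrt σ / ρ := by
        field_simp
      have e2 : b * (ρ / Real.sqrt σ) = ρ * (b / Real.sqrt σ) := by ring
      rw [e1, e2] at hF
      exact hF

theorem Rk.up [Infinite K] [CharZero K] {w : Fin n → ℕ} {N : ℕ} {a : Fin (E + 1) → ℝ}
    (ha : ∀ i, 0 < a i) {c : ℝ} {j : Fin (E + 1)} (hj : j ≠ 0) {b : ℝ} (hb : 0 < b)
    {s0 σ : ℝ} (hs : 0 < s0) (h : Up s0 σ)
    (hF : Rk K w (Sx (nw a j (b / Real.sqrt σ) (b * Real.sqrt σ)) (c - b * Real.sqrt σ)) N) :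
    Rk K w (Sx (nw a j (b / Real.sqrt s0) (b * Real.sqrt s0)) (c - b * Real.sqrt s0)) N := by
  induction h with
  | base => exact hF
  | step σ ρ h1 h2 ih =>
    refine ih ?_
    have hσ := h1.pos hs
    have hρ : (0 : ℝ) < ρ := lt_of_lt_of_le hσ h2
    have hρ' : 0 < ρ := by exact_mod_cast hρ
    have hq : 0 < Real.sqrt σ := Real.sqrt_pos.2 hσ
    have hqq : Real.sqrt σ * Real.sqrt σ = σ := Real.mul_self_sqrt hσ.le
    refine Rk.sx (nw_pos ha j (by positivity) (by positivity)) hj hρ' ?_ ?_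
    · rw [nw_self, nw_zero _ hj]
      have e : (ρ : ℝ) * (b / Real.sqrt σ) = (b * ρ) / Real.sqrt σ := by ring
      rw [e, le_div_iff₀ hq, mul_assoc, hqq]
      exact mul_le_mul_of_nonneg_left h2 hb.le
    · rw [nw_nw _ hj, nw_self, nw_zero _ hj]
      rw [sqrt_step hσ hρ] at hF
      have e1 : b / (ρ / Real.sqrt σ) = b * Real.sqrt σ / ρ := by
        field_simp
      have e2 : b * (ρ / Real.sqrt σ) = ρ * (b / Real.sqrt σ) := by ring
      rw [e1, e2] at hF
      have e3 : c - b * Real.sqrt σ - (ρ * (b / Real.sqrt σ) - b * Real.sqrt σ) =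
          c - ρ * (b / Real.sqrt σ) := by ring
      rw [e3]
      exact hF

/-- The weights after `t` phases. -/
noncomputable def Wt (E t : ℕ) (S L μ : ℝ) : Fin (E + 1) → ℝ :=
  Fin.cons (μ * L ^ t / S) fun j : Fin E => if (j : ℕ) < t then μ * L ^ E / S else L ^ (E + 1) / S

theorem Wt_zero (t : ℕ) (S L μ : ℝ) : Wt E t S L μ 0 = μ * L ^ t / S := by
  simp [Wt]

theorem Wt_succ (t : ℕ) (S L μ : ℝ) (j : Fin E) :
    Wt E t S L μ j.succ = if (j : ℕ) < t then μ * L ^ E / S else L ^ (E + 1) / S := by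
  simp [Wt]

theorem Wt_pos {t : ℕ} {S L μ : ℝ} (hS : 0 < S) (hL : 0 < L) (hμ : 0 < μ) :
    ∀ i, 0 < Wt E t S L μ i := by
  intro i
  refine Fin.cases ?_ (fun j => ?_) i
  · rw [Wt_zero]
    positivity
  · rw [Wt_succ]
    split_ifs <;> positivity

/-- The square roots in a phase. -/
theorem phase_sqrt {t : ℕ} (ht : t < E) {S L μ σ : ℝ} (hS : 0 < S) (hL : 0 < L) (hμ : 0 < μ)
    (hσ : 0 < σ) {b κ : ℝ} (hκ : κ = Real.sqrt (L ^ (E + 1 - t) / σ))
    (hb : b = μ * κ / S * L ^ t * Real.sqrt (L ^ (E + 1 - t))) :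
    b / Real.sqrt σ = μ * κ * κ * L ^ t / S ∧ b * Real.sqrt σ = μ * L ^ (E + 1) / S ∧
    b / Real.sqrt (L ^ (E - 1 - t)) = μ * κ * L ^ (t + 1) / S ∧
    b * Real.sqrt (L ^ (E - 1 - t)) = μ * κ * L ^ E / S := by
  obtain ⟨u, hu⟩ : ∃ u, u = L ^ (E + 1 - t) := ⟨_, rfl⟩
  obtain ⟨s, hs⟩ : ∃ s, s = L ^ (E - 1 - t) := ⟨_, rfl⟩
  have hu0 : 0 < u := by rw [hu]; positivity
  have hs0 : 0 < s := by rw [hs]; positivity
  have hus : u = s * L ^ 2 := by
    rw [hu, hs, ← pow_add]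
    congr 1
    omega
  have hut : L ^ t * u = L ^ (E + 1) := by
    rw [hu, ← pow_add]
    congr 1
    omega
  have hst : L ^ t * L * s = L ^ E := by
    rw [hs, ← pow_succ, ← pow_add]
    congr 1
    omega
  rw [← hu] at hκ hb
  rw [← hs]
  have hq : Real.sqrt u = Real.sqrt s * L := by
    rw [hus, Real.sqrt_mul hs0.le, Real.sqrt_sq hL.le]
  have hκ' : κ = Real.sqrt u / Real.sqrt σ := by
    rw [hκ, Real.sqrt_div hu0.le]
  have hσ1 : 0 < Real.sqrt σ := Real.sqrt_pos.2 hσ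
  have hs1 : 0 < Real.sqrt s := Real.sqrt_pos.2 hs0
  have huu : Real.sqrt u * Real.sqrt u = u := Real.mul_self_sqrt hu0.le
  have hss : Real.sqrt s * Real.sqrt s = s := Real.mul_self_sqrt hs0.le
  refine ⟨?_, ?_, ?_, ?_⟩
  · rw [hb, hκ']
    field_simp
  · have e : L ^ (E + 1) = L ^ t * (Real.sqrt u * Real.sqrt u) := by rw [huu, hut]
    rw [hb, hκ', e]
    field_simp
  · rw [hb, hq]
    field_simp
    ring
  · have e : L ^ E = L ^ t * L * (Real.sqrt s * Real.sqrt s) := by rw [hss, hst]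
    rw [hb, hq, e]
    field_simp

/-- One phase, for emptiness. -/
theorem Full.phase [Infinite K] [CharZero K] {w : Fin n → ℕ} {t : ℕ} (ht : t < E)
    {S L μ μ' σ : ℝ} (hS : 0 < S) (hL : 1 ≤ L) (hμ : 1 ≤ μ)
    (hup : Up (L ^ (E - 1 - t)) σ) (hσ : σ ≤ L ^ (E + 1 - t))
    (hμ' : μ * Real.sqrt (L ^ (E + 1 - t) / σ) ≤ μ') {c : ℝ}
    (hF : Full K w (Sx (Wt E t S L μ) c)) : Full K w (Sx (Wt E (t + 1) S L μ') c) := by
  have hL0 : 0 < L := by linarith
  have hμ0 : 0 < μ := by linarith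
  have hσ0 : 0 < σ := hup.pos (by positivity)
  obtain ⟨κ, hκ⟩ : ∃ κ, κ = Real.sqrt (L ^ (E + 1 - t) / σ) := ⟨_, rfl⟩
  obtain ⟨b, hb⟩ : ∃ b, b = μ * κ / S * L ^ t * Real.sqrt (L ^ (E + 1 - t)) := ⟨_, rfl⟩
  obtain ⟨h1, h2, h3, h4⟩ := phase_sqrt ht hS hL0 hμ0 hσ0 hκ hb
  have hκ1 : 1 ≤ κ := by
    rw [hκ, Real.one_le_sqrt, le_div_iff₀ hσ0, one_mul]
    exact hσ
  have hb0 : 0 < b := by
    rw [hb]
    have : 0 < Real.sqrt (L ^ (E + 1 - t)) := Real.sqrt_pos.2 (by positivity)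
    positivity
  rw [← hκ] at hμ'
  let j : Fin E := ⟨t, ht⟩
  have hj : j.succ ≠ 0 := Fin.succ_ne_zero j
  have hW := Wt_pos (E := E) (t := t) hS hL0 hμ0
  have h5 := Full.up (K := K) (w := w) hW (c := c) hj hb0 (by positivity) hup ?_
  · refine h5.mono (Sx_mono (fun i => ?_) le_rfl)
    refine Fin.cases ?_ (fun k => ?_) i
    · rw [nw_zero _ hj, h3, Wt_zero]
      gcongr
    · by_cases hk : k = j
      · subst hk
        rw [nw_self, h4, Wt_succ, if_pos (by
          show t < t + 1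
          omega)]
        gcongr
      · rw [nw_other _ (Fin.succ_ne_zero k) (by
          intro h
          exact hk (Fin.succ_injective _ h)), Wt_succ, Wt_succ]
        have hk' : (k : ℕ) ≠ t := fun h => hk (Fin.ext h)
        by_cases hkt : (k : ℕ) < t
        · rw [if_pos hkt, if_pos (by omega)]
          gcongr
          nlinarith
        · rw [if_neg hkt, if_neg (by omega)]
  · refine hF.mono (Sx_mono (fun i => ?_) le_rfl)
    rw [h1, h2]
    refine Fin.cases ?_ (fun k => ?_) i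
    · rw [nw_zero _ hj, Wt_zero]
      have : μ ≤ μ * κ * κ := by
        have h6 : μ * 1 ≤ μ * κ := mul_le_mul_of_nonneg_left hκ1 hμ0.le
        nlinarith
      gcongr
    · by_cases hk : k = j
      · subst hk
        rw [nw_self, Wt_succ, if_neg (by
          show ¬ t < t
          omega)]
        have : L ^ (E + 1) ≤ μ * L ^ (E + 1) := by
          have : 0 < L ^ (E + 1) := by positivity
          nlinarith
        gcongr
      · rw [nw_other _ (Fin.succ_ne_zero k) (by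
          intro h
          exact hk (Fin.succ_injective _ h))]

/-- One phase, for ranks. -/
theorem Rk.phase [Infinite K] [CharZero K] {w : Fin n → ℕ} {N : ℕ} {t : ℕ} (ht : t < E)
    {S L ν ν' σ : ℝ} (hS : 0 < S) (hL : 1 ≤ L) (hν0 : 0 < ν) (hν : ν ≤ 1) (hν'0 : 0 ≤ ν')
    (hup : Up (L ^ (E - 1 - t)) σ) (hσ : σ ≤ L ^ (E + 1 - t))
    (hν' : ν' ≤ ν * Real.sqrt (σ / L ^ (E + 1 - t))) {c : ℝ}
    (hF : Rk K w (Sx (Wt E t S L ν) c) N) :
    Rk K w (Sx (Wt E (t + 1) S L ν') (c + L ^ (E + 1) / S)) N := by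
  have hL0 : 0 < L := by linarith
  have hσ0 : 0 < σ := hup.pos (by positivity)
  have hu0 : 0 < L ^ (E + 1 - t) := by positivity
  obtain ⟨κ, hκ⟩ : ∃ κ, κ = Real.sqrt (L ^ (E + 1 - t) / σ) := ⟨_, rfl⟩
  obtain ⟨θ, hθ⟩ : ∃ θ, θ = Real.sqrt (σ / L ^ (E + 1 - t)) := ⟨_, rfl⟩
  have hθκ : κ * θ = 1 := by
    rw [hκ, hθ, ← Real.sqrt_mul (by positivity)]
    have : L ^ (E + 1 - t) / σ * (σ / L ^ (E + 1 - t)) = 1 := by
      field_simp
    rw [this, Real.sqrt_one]
  have hθ0 : 0 < θ := by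
    rw [hθ]
    exact Real.sqrt_pos.2 (by positivity)
  have hθ1 : θ ≤ 1 := by
    rw [hθ, Real.sqrt_le_one]
    rw [div_le_one hu0]
    exact hσ
  obtain ⟨μ, hμ⟩ : ∃ μ, μ = ν * θ * θ := ⟨_, rfl⟩
  have hμ0 : 0 < μ := by rw [hμ]; positivity
  obtain ⟨b, hb⟩ : ∃ b, b = μ * κ / S * L ^ t * Real.sqrt (L ^ (E + 1 - t)) := ⟨_, rfl⟩
  obtain ⟨h1, h2, h3, h4⟩ := phase_sqrt ht hS hL0 hμ0 hσ0 hκ hb
  have e1 : μ * κ = ν * θ := by
    rw [hμ]
    calc ν * θ * θ * κ = ν * θ * (κ * θ) := by ring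
      _ = ν * θ := by rw [hθκ, mul_one]
  have e2 : μ * κ * κ = ν := by
    rw [e1]
    calc ν * θ * κ = ν * (κ * θ) := by ring
      _ = ν := by rw [hθκ, mul_one]
  rw [e2] at h1
  rw [e1] at h3 h4
  have hκ0 : 0 < κ := by
    rw [hκ]
    exact Real.sqrt_pos.2 (by positivity)
  have hb0 : 0 < b := by
    rw [hb]
    have : 0 < Real.sqrt (L ^ (E + 1 - t)) := Real.sqrt_pos.2 (by positivity)
    positivity
  rw [← hθ] at hν'
  let j : Fin E := ⟨t, ht⟩
  have hj : j.succ ≠ 0 := Fin.succ_ne_zero j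
  have hW := Wt_pos (E := E) (t := t) hS hL0 hν0
  have hμν : μ ≤ 1 := by
    rw [hμ]
    have h6 : ν * θ ≤ 1 := by nlinarith
    nlinarith
  have h5 := Rk.up (K := K) (w := w) (N := N) hW (c := c + b * Real.sqrt σ) hj hb0
    (by positivity) hup ?_
  · refine h5.mono (Sx_mono (fun i => ?_) ?_)
    · refine Fin.cases ?_ (fun k => ?_) i
      · rw [nw_zero _ hj, h3, Wt_zero]
        gcongr
      · by_cases hk : k = j
        · subst hk
          rw [nw_self, h4, Wt_succ, if_pos (by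
            show t < t + 1
            omega)]
          gcongr
        · rw [nw_other _ (Fin.succ_ne_zero k) (by
            intro h
            exact hk (Fin.succ_injective _ h)), Wt_succ, Wt_succ]
          have hk' : (k : ℕ) ≠ t := fun h => hk (Fin.ext h)
          by_cases hkt : (k : ℕ) < t
          · rw [if_pos hkt, if_pos (by omega)]
            gcongr
            nlinarith
          · rw [if_neg hkt, if_neg (by omega)]
    · rw [h2, h4]
      have h6 : μ * L ^ (E + 1) / S ≤ L ^ (E + 1) / S := by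
        have : 0 < L ^ (E + 1) := by positivity
        gcongr
        nlinarith
      have h7 : 0 ≤ ν * θ * L ^ E / S := by positivity
      linarith
  · have e3 : c + b * Real.sqrt σ - b * Real.sqrt σ = c := by ring
    rw [e3]
    refine hF.mono (Sx_mono (fun i => ?_) le_rfl)
    rw [h1, h2]
    refine Fin.cases ?_ (fun k => ?_) i
    · rw [nw_zero _ hj, Wt_zero]
    · by_cases hk : k = j
      · subst hk
        rw [nw_self, Wt_succ, if_neg (by
          show ¬ t < t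
          omega)]
        have : μ * L ^ (E + 1) ≤ L ^ (E + 1) := by
          have : 0 < L ^ (E + 1) := by positivity
          nlinarith
        gcongr
      · rw [nw_other _ (Fin.succ_ne_zero k) (by
          intro h
          exact hk (Fin.succ_injective _ h))]

end Pool.Agent.H932R5
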