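import Mathlib
import Pool.Agent.H15.G.R_seed8.H932R3.Close
import Pool.Agent.H15.G.R_seed8.H932R5.Walk

set_option autoImplicit false

/-!
# Reaching the first position
-/

namespace Pool.Agent.H932R5

open Pool.Agent.H932R3

theorem jump_one {s0 : ℝ} (hs : 1 ≤ s0) {q : ℕ} (hq : s0 ≤ (q : ℝ) ^ 2) :
    ∃ x, Up s0 x ∧ (q : ℝ) ^ 2 ≤ x ∧ x ≤ ((q : ℝ) + 1) ^ 2 := by
  have hs0 : 0 < s0 := by linarith
  have h1 : 1 ≤ Real.sqrt s0 := Real.one_le_sqrt.2 hs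
  have h2 : Real.sqrt s0 * Real.sqrt s0 = s0 := Real.mul_self_sqrt hs0.le
  have hq0 : (0 : ℝ) ≤ q := Nat.cast_nonneg q
  obtain ⟨z, hz⟩ : ∃ z, z = Real.sqrt s0 := ⟨_, rfl⟩
  rw [← hz] at h1 h2
  have hzq : z ≤ q := by
    rw [hz]
    exact Real.sqrt_le_left hq0 |>.2 hq |> fun h => h
  have h3 : (q : ℝ) * z ≤ ⌈(q : ℝ) * z⌉₊ := Nat.le_ceil _
  have h4 : (⌈(q : ℝ) * z⌉₊ : ℝ) < q * z + 1 := Nat.ceil_lt_add_one (by positivity)
  obtain ⟨ρ, hρ⟩ : ∃ ρ, ρ = ⌈(q : ℝ) * z⌉₊ := ⟨_, rfl⟩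
  rw [← hρ] at h3 h4
  refine ⟨_, Up.step s0 ρ Up.base ?_, ?_, ?_⟩
  · rw [← h2]
    nlinarith
  · rw [le_div_iff₀ hs0, ← h2]
    have : (q : ℝ) ^ 2 * (z * z) = (q * z) ^ 2 := by ring
    rw [this]
    exact pow_le_pow_left₀ (by positivity) h3 2
  · rw [div_le_iff₀ hs0, ← h2]
    have : ((q : ℝ) + 1) ^ 2 * (z * z) = ((q + 1) * z) ^ 2 := by ring
    rw [this]
    refine pow_le_pow_left₀ (by positivity) ?_ 2
    nlinarith

theorem exists_square {q r : ℕ} (hq : 1000 ≤ q) {y : ℝ} (hy1 : (q : ℝ) ^ 2 - 1 / 20 ≤ y)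
    (hy2 : y ≤ ((q : ℝ) + 1) ^ 2 + 1 / 20) :
    ∃ g P : ℕ, P % 4 = r % 4 ∧ q ^ 2 + 4 * q + 2 ≤ g ∧ g ≤ q ^ 2 + 6 * q + 2 ∧
      1 ≤ P * y - (g : ℝ) ^ 2 ∧ P * y - (g : ℝ) ^ 2 ≤ 26 * q := by
  have hqR : (1000 : ℝ) ≤ q := by exact_mod_cast hq
  have hy0 : 0 < y := by nlinarith
  obtain ⟨g0, hg0⟩ : ∃ g0 : ℕ, g0 = q ^ 2 + 4 * q + 2 := ⟨_, rfl⟩
  have hg0R : (g0 : ℝ) = (q : ℝ) ^ 2 + 4 * q + 2 := by
    rw [hg0]
    push_cast
    ring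
  obtain ⟨k0, hk0⟩ : ∃ k0 : ℕ, k0 = ⌊((g0 : ℝ) ^ 2 + 1 - y * ((r % 4 : ℕ) : ℝ)) / (4 * y)⌋₊ + 1 :=
    ⟨_, rfl⟩
  have hr4 : ((r % 4 : ℕ) : ℝ) ≤ 3 := by
    have : r % 4 ≤ 3 := by omega
    exact_mod_cast this
  have hr0 : (0 : ℝ) ≤ ((r % 4 : ℕ) : ℝ) := Nat.cast_nonneg _
  obtain ⟨e, he⟩ : ∃ e : ℝ, e = ((r % 4 : ℕ) : ℝ) := ⟨_, rfl⟩
  rw [← he] at hr4 hr0 hk0
  have hnum : 0 ≤ ((g0 : ℝ) ^ 2 + 1 - y * e) / (4 * y) := by
    refine div_nonneg ?_ (by positivity)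
    have h1 : y * e ≤ (((q : ℝ) + 1) ^ 2 + 1 / 20) * 3 :=
      mul_le_mul hy2 hr4 hr0 (by positivity)
    have h2 : (q : ℝ) ^ 2 + 4 * q + 2 ≤ ((q : ℝ) ^ 2 + 4 * q + 2) ^ 2 := by
      nlinarith
    rw [hg0R]
    have h3 : 1000 * ((q : ℝ) ^ 2 + 4 * q + 2) ≤ ((q : ℝ) ^ 2 + 4 * q + 2) ^ 2 := by
      nlinarith
    nlinarith
  have hk1 : ((g0 : ℝ) ^ 2 + 1 - y * e) / (4 * y) < k0 := by
    rw [hk0]
    push_cast
    exact Nat.lt_floor_add_one _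
  have hk2 : (k0 : ℝ) ≤ ((g0 : ℝ) ^ 2 + 1 - y * e) / (4 * y) + 1 := by
    rw [hk0]
    push_cast
    have := Nat.floor_le hnum
    linarith
  rw [div_lt_iff₀ (by positivity)] at hk1
  have hk3 : (k0 : ℝ) * (4 * y) ≤ (g0 : ℝ) ^ 2 + 1 - y * e + 4 * y := by
    have h1 := mul_le_mul_of_nonneg_right hk2 (show 0 ≤ 4 * y by positivity)
    have h2 : (((g0 : ℝ) ^ 2 + 1 - y * e) / (4 * y) + 1) * (4 * y) =
        (g0 : ℝ) ^ 2 + 1 - y * e + 4 * y := by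
      field_simp
    rwa [h2] at h1
  obtain ⟨D, hD⟩ : ∃ D : ℕ → ℝ, ∀ i, D i = ((r % 4 + 4 * (k0 + i) : ℕ) : ℝ) * y -
      ((g0 + 2 * i : ℕ) : ℝ) ^ 2 := ⟨_, fun _ => rfl⟩
  have hD' : ∀ i, D i = (e + 4 * (k0 + i)) * y - ((g0 : ℝ) + 2 * i) ^ 2 := by
    intro i
    rw [hD, he]
    push_cast
    ring
  have hD0 : 1 ≤ D 0 := by
    rw [hD']
    push_cast
    nlinarith
  have hD0' : D 0 ≤ 1 + 4 * y := by
    rw [hD']
    push_cast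
    nlinarith
  have hstep : ∀ i : ℕ, i ≤ q → D (i + 1) + 8 * q ≤ D i ∧ D i ≤ D (i + 1) + 25 * q := by
    intro i hi
    have hiR : (i : ℝ) ≤ q := by exact_mod_cast hi
    have hi0 : (0 : ℝ) ≤ i := Nat.cast_nonneg i
    rw [hD', hD', hg0R]
    push_cast
    constructor
    · nlinarith
    · nlinarith
  have hlow : ∀ i : ℕ, i ≤ q → D i ≤ D 0 - 8 * q * i := by
    intro i
    induction i with
    | zero =>
      intro _
      simp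
    | succ i ih =>
      intro hi
      have h1 := ih (by omega)
      have h2 := (hstep i (by omega)).1
      push_cast
      linarith
  have hex : ∃ i : ℕ, D (i + 1) < 1 := by
    refine ⟨q - 1, ?_⟩
    have h1 := hlow q le_rfl
    have h2 : q - 1 + 1 = q := by omega
    rw [h2]
    nlinarith
  classical
  obtain ⟨i, hi, hmin⟩ : ∃ i : ℕ, D (i + 1) < 1 ∧ ∀ j < i, ¬ D (j + 1) < 1 :=
    ⟨Nat.find hex, Nat.find_spec hex, fun j hj => Nat.find_min hex hj⟩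
  have hiq : i + 1 ≤ q := by
    by_contra hcon
    refine hmin (q - 1) (by omega) ?_
    have h1 := hlow q le_rfl
    have h2 : q - 1 + 1 = q := by omega
    rw [h2]
    nlinarith
  have hDi : 1 ≤ D i := by
    rcases Nat.eq_zero_or_pos i with rfl | h0
    · exact hD0
    · have h1 := hmin (i - 1) (by omega)
      have h2 : i - 1 + 1 = i := by omega
      rw [h2] at h1
      linarith
  have hDi' := (hstep i (by omega)).2
  refine ⟨g0 + 2 * i, r % 4 + 4 * (k0 + i), by omega, by omega, by omega, ?_, ?_⟩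
  · rw [← hD]
    exact hDi
  · rw [← hD]
    linarith

/-- The first position. -/
theorem start_pos {r q : ℕ} {s0 u κ : ℝ} (hs : 1 ≤ s0) (ht : Tgt r u κ) (hq : 1000 ≤ q)
    (hqs : s0 ≤ (q : ℝ) ^ 2) (hqr : 12 * q ^ 2 ≤ r) :
    ∃ p T, RV s0 κ p T ∧ p % 4 = r % 4 ∧ q ^ 2 ≤ p ∧ p ≤ 2 * q ^ 2 ∧
      1 / (2 * (p : ℝ) ^ 2) ≤ T ∧ T ≤ 53 * q / (p : ℝ) ^ 2 := by
  obtain ⟨hκ, hu⟩ := ht
  obtain ⟨x, hx, hx1, hx2⟩ := jump_one hs hqs
  have hqR : (1000 : ℝ) ≤ q := by exact_mod_cast hq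
  have hrR : 12 * (q : ℝ) ^ 2 ≤ r := by exact_mod_cast hqr
  have hr0 : (0 : ℝ) < r := by nlinarith
  have hx0 : 0 < x := hx.pos (by linarith)
  rw [abs_le] at hu
  have hu0 : 0 < u := by nlinarith [hu.1]
  obtain ⟨y, hy⟩ : ∃ y, y = x * u / r := ⟨_, rfl⟩
  have hxr : 10 * x ≤ r := by nlinarith
  have hy1 : x - 1 / 20 ≤ y := by
    rw [hy, le_div_iff₀ hr0]
    nlinarith [hu.1]
  have hy2 : y ≤ x + 1 / 20 := by
    rw [hy, div_le_iff₀ hr0]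
    nlinarith [hu.2]
  have hy0 : 0 < y := by nlinarith
  obtain ⟨g, P, hmod, hg1, hg2, hD1, hD2⟩ := exists_square (r := r) hq
    (show (q : ℝ) ^ 2 - 1 / 20 ≤ y by linarith) (show y ≤ ((q : ℝ) + 1) ^ 2 + 1 / 20 by linarith)
  have hg1R : (q : ℝ) ^ 2 + 4 * q + 2 ≤ g := by exact_mod_cast hg1
  have hg2R : (g : ℝ) ≤ (q : ℝ) ^ 2 + 6 * q + 2 := by exact_mod_cast hg2
  have hg0 : (0 : ℝ) < g := by nlinarith
  have hgy : y ≤ g := by nlinarith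
  have hPy : (g : ℝ) ^ 2 ≤ P * y := by linarith
  have hPg : (g : ℝ) ≤ P := by
    by_contra hcon
    push Not at hcon
    have hP0 : (0 : ℝ) ≤ P := Nat.cast_nonneg P
    nlinarith
  have hPq : q ^ 2 ≤ P := by
    have : (q : ℝ) ^ 2 ≤ P := by nlinarith
    exact_mod_cast this
  have hPq2 : P ≤ 2 * q ^ 2 := by
    have h1 : (P : ℝ) * y ≤ ((q : ℝ) ^ 2 + 6 * q + 2) ^ 2 + 26 * q := by
      have : (g : ℝ) ^ 2 ≤ ((q : ℝ) ^ 2 + 6 * q + 2) ^ 2 := pow_le_pow_left₀ hg0.le hg2R 2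
      linarith
    have h2 : ((q : ℝ) ^ 2 + 6 * q + 2) ^ 2 + 26 * q ≤ 2 * (q : ℝ) ^ 2 * (q ^ 2 - 1 / 20) := by
      obtain ⟨z, hz, hzq⟩ : ∃ z : ℝ, 0 ≤ z ∧ (q : ℝ) = z + 1000 :=
        ⟨q - 1000, by linarith, by ring⟩
      rw [hzq]
      have : 0 ≤ 2 * (z + 1000) ^ 2 * ((z + 1000) ^ 2 - 1 / 20) -
          (((z + 1000) ^ 2 + 6 * (z + 1000) + 2) ^ 2 + 26 * (z + 1000)) := by
        ring_nf
        positivity
      linarith
    have h3 : (P : ℝ) * y ≤ 2 * (q : ℝ) ^ 2 * y := by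
      refine h1.trans (h2.trans ?_)
      refine mul_le_mul_of_nonneg_left ?_ (by positivity)
      linarith
    have h4 : (P : ℝ) ≤ 2 * (q : ℝ) ^ 2 := le_of_mul_le_mul_right h3 hy0
    exact_mod_cast h4
  have hPqR : (q : ℝ) ^ 2 ≤ P := by exact_mod_cast hPq
  have hPq2R : (P : ℝ) ≤ 2 * (q : ℝ) ^ 2 := by exact_mod_cast hPq2
  have hq6 : 1000000 ≤ q ^ 2 := by
    have := Nat.pow_le_pow_left hq 2
    omega
  have hP6 : 1000000 ≤ P := by omega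
  have hP6R : (1000000 : ℝ) ≤ P := by exact_mod_cast hP6
  have hP0 : (0 : ℝ) < P := by linarith
  have hUp := Up.step x g hx (by nlinarith)
  obtain ⟨D, hD⟩ : ∃ D, D = P * y - (g : ℝ) ^ 2 := ⟨_, rfl⟩
  rw [← hD] at hD1 hD2
  have hlogeq : Real.log ((g : ℝ) ^ 2 / x) = 2 * (bet P - κ - ((gam P - gam r) +
      Real.log (1 + D / (g : ℝ) ^ 2) / 2)) := by
    have h1 : 1 + D / (g : ℝ) ^ 2 = P * y / (g : ℝ) ^ 2 := by
      rw [hD]
      field_simp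
      ring
    rw [h1, hy, Real.log_div (by positivity) (by positivity), Real.log_div (by positivity)
      (by positivity), Real.log_mul (by positivity) (by positivity), Real.log_div (by positivity)
      (by positivity), Real.log_mul (by positivity) (by positivity), Real.log_pow, hκ]
    unfold gam
    push_cast
    ring
  obtain ⟨hg3, hg4⟩ := gam_le (p := P) (by omega) ((r - P) / 4)
  have hPr : P ≤ r := by omega
  have hrr : P + 4 * ((r - P) / 4) = r := by omega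
  rw [hrr] at hg3 hg4
  have hpos : 0 < D / (g : ℝ) ^ 2 := by positivity
  obtain ⟨hl1, hl2⟩ := log_bounds hpos
  refine ⟨P, _, ⟨_, hUp, hlogeq⟩, hmod, hPq, hPq2, ?_, ?_⟩
  · have h1 : D / (g : ℝ) ^ 2 / (1 + D / (g : ℝ) ^ 2) = D / (P * y) := by
      have h2 : 1 + D / (g : ℝ) ^ 2 = P * y / (g : ℝ) ^ 2 := by
        rw [hD]
        field_simp
        ring
      rw [h2]
      field_simp
    rw [h1] at hl1
    have h3 : 1 / (P : ℝ) ^ 2 ≤ D / (P * y) := by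
      rw [div_le_div_iff₀ (by positivity) (by positivity)]
      have : (P : ℝ) * y ≤ P * P := mul_le_mul_of_nonneg_left (hgy.trans hPg) hP0.le
      nlinarith [mul_le_mul_of_nonneg_right hD1 (show 0 ≤ (P : ℝ) ^ 2 by positivity)]
    have h4 : 1 / (2 * (P : ℝ) ^ 2) = (1 / (P : ℝ) ^ 2) / 2 := by
      field_simp
    rw [h4]
    linarith
  · have h1 : D / (g : ℝ) ^ 2 ≤ 104 * q / (P : ℝ) ^ 2 := by
      rw [div_le_div_iff₀ (by positivity) (by positivity)]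
      have h2 : (P : ℝ) ^ 2 ≤ 4 * (g : ℝ) ^ 2 := by
        have h3 : (P : ℝ) ≤ 2 * g := by nlinarith
        have := pow_le_pow_left₀ hP0.le h3 2
        linarith [this, (show (2 * (g : ℝ)) ^ 2 = 4 * (g : ℝ) ^ 2 by ring)]
      calc D * (P : ℝ) ^ 2 ≤ (26 * q) * (4 * (g : ℝ) ^ 2) :=
            mul_le_mul hD2 h2 (by positivity) (by positivity)
        _ = 104 * q * (g : ℝ) ^ 2 := by ring
    have h2 : gam P - gam r ≤ 1 / (P : ℝ) ^ 2 := by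
      refine hg4.trans ?_
      have h3 : 0 ≤ 1 / (4 * ((P : ℝ) + 4 * (((r - P) / 4 : ℕ) : ℝ) - 2) ^ 2) := by positivity
      have h4 : 1 / (4 * ((P : ℝ) - 2) ^ 2) ≤ 1 / (P : ℝ) ^ 2 := by
        refine one_div_le_one_div_of_le (by positivity) ?_
        nlinarith
      linarith
    have h3 : (53 : ℝ) * q / (P : ℝ) ^ 2 = 52 * q / (P : ℝ) ^ 2 + q / (P : ℝ) ^ 2 := by ring
    have h4 : 104 * q / (P : ℝ) ^ 2 = 2 * (52 * q / (P : ℝ) ^ 2) := by ring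
    have h5 : 1 / (P : ℝ) ^ 2 ≤ q / (P : ℝ) ^ 2 := by
      gcongr
      linarith
    rw [h4] at h1
    rw [h3]
    linarith

end Pool.Agent.H932R5
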