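import Mathlib
import Pool.Agent.H15.G.R_seed8.H932R5.Start

set_option autoImplicit false

/-!
# Reaching every large real ratio very closely
-/

namespace Pool.Agent.H932R5

open Pool.Agent.H932R3

theorem G0_bounds {y : ℝ} (hy : 0 < y) : 4 / (y + 4) ^ 2 ≤ Gk 0 y ∧ Gk 0 y ≤ 4 / y ^ 2 := by
  have h := Gk_bounds 0 hy
  rw [ck_zero] at h
  have e : ((shS 0 : ℕ) : ℝ) = 4 := by
    have : shS 0 = 4 := rfl
    rw [this]
    norm_num
  rw [e] at h
  exact h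

section

variable {r P0 : ℕ} {s0 u κ : ℝ}

theorem greedy (hs : 0 < s0) (ht : Tgt r u κ) (hP : 100 ≤ P0) (hsm : Small r P0) {p C : ℕ}
    (hp : P0 ≤ p) (hmod : p % 4 = r % 4) {T0 : ℝ} (hC : 8 * (C + 1) + 7 ≤ p) (hpr : 2 * p ≤ r)
    (hT1 : 1 / (2 * (p : ℝ) ^ 2) ≤ T0) (hT2 : T0 ≤ C / (p : ℝ) ^ 2)
    (hCr : C / (p : ℝ) ^ 2 ≤ 1 / (32 * (r : ℝ))) (h : RV s0 κ p T0) :
    ∃ p' T', p ≤ p' ∧ p' ≤ 2 * p ∧ p' % 4 = r % 4 ∧ RV s0 κ p' T' ∧
      1 / (2 * (p' : ℝ) ^ 2) ≤ T' ∧ T' ≤ 9 / (2 * (p' : ℝ) ^ 2) := by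
  by_contra hcon
  push Not at hcon
  have hp0 : (0 : ℝ) < p := by exact_mod_cast (show 0 < p by omega)
  have key : ∀ i : ℕ, i ≤ C + 1 → ∃ T, RV s0 κ (p + 8 * i) T ∧
      9 / (2 * ((p + 8 * i : ℕ) : ℝ) ^ 2) < T ∧ T ≤ T0 - i / (p : ℝ) ^ 2 := by
    intro i
    induction i with
    | zero =>
      intro _
      refine ⟨T0, h, ?_, by simp⟩
      have := hcon p T0 le_rfl (by omega) hmod h hT1
      simpa using this
    | succ i ih =>
      intro hi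
      obtain ⟨T, h1, h2, h3⟩ := ih (by omega)
      have hpi : (0 : ℝ) < ((p + 8 * i : ℕ) : ℝ) := by
        exact_mod_cast (show 0 < p + 8 * i by omega)
      have hT0 : 0 < T := lt_trans (by positivity) h2
      have hi0 : 0 ≤ (i : ℝ) / (p : ℝ) ^ 2 := by positivity
      have hT : |T| ≤ 1 / (32 * (r : ℝ)) := by
        rw [abs_of_pos hT0]
        linarith
      have h4 := RV.stepA hs ht hP hsm (p := p + 8 * i) (by omega) (by omega) (by omega) hT h1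
      obtain ⟨z, hz⟩ : ∃ z : ℝ, z = ((p + 8 * i : ℕ) : ℝ) := ⟨_, rfl⟩
      rw [← hz] at h2 h4 hpi
      have hz2 : z + 3 + 4 ≤ 2 * p := by
        rw [hz]
        have : p + 8 * i + 7 ≤ 2 * p := by omega
        have h5 : ((p + 8 * i + 7 : ℕ) : ℝ) ≤ ((2 * p : ℕ) : ℝ) := by exact_mod_cast this
        push_cast at h5 ⊢
        linarith
      obtain ⟨hg1, hg2⟩ := G0_bounds (y := z + 3) (by linarith)
      have hg3 : 1 / (p : ℝ) ^ 2 ≤ Gk 0 (z + 3) := by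
        refine le_trans ?_ hg1
        rw [div_le_div_iff₀ (by positivity) (by positivity)]
        have : (z + 3 + 4) ^ 2 ≤ (2 * (p : ℝ)) ^ 2 := pow_le_pow_left₀ (by linarith) hz2 2
        nlinarith
      have hg4 : Gk 0 (z + 3) ≤ 4 / z ^ 2 := by
        refine hg2.trans ?_
        refine div_le_div_of_nonneg_left (by norm_num) (by positivity) ?_
        nlinarith
      have h9 : 9 / (2 * z ^ 2) = 1 / (2 * z ^ 2) + 4 / z ^ 2 := by
        field_simp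
        norm_num
      rw [h9] at h2
      have e8 : p + 8 * (i + 1) = p + 8 * i + 8 := by ring
      have hlow : 1 / (2 * ((p + 8 * i + 8 : ℕ) : ℝ) ^ 2) ≤ T - Gk 0 (z + 3) := by
        have h5 : 1 / (2 * ((p + 8 * i + 8 : ℕ) : ℝ) ^ 2) ≤ 1 / (2 * z ^ 2) := by
          refine one_div_le_one_div_of_le (by positivity) ?_
          have h6 : ((p + 8 * i + 8 : ℕ) : ℝ) = z + 8 := by
            rw [hz]
            push_cast
            ring
          rw [h6]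
          nlinarith
        linarith
      rw [e8]
      refine ⟨_, h4, ?_, ?_⟩
      · exact hcon _ _ (by omega) (by omega) (by omega) h4 hlow
      · have h7 : (((i + 1 : ℕ) : ℝ)) / (p : ℝ) ^ 2 = i / (p : ℝ) ^ 2 + 1 / (p : ℝ) ^ 2 := by
          push_cast
          ring
        rw [h7]
        linarith
  obtain ⟨T, _, h2, h3⟩ := key (C + 1) le_rfl
  have h4 : 0 < T := lt_trans (by positivity) h2
  have h5 : ((C + 1 : ℕ) : ℝ) / (p : ℝ) ^ 2 = C / (p : ℝ) ^ 2 + 1 / (p : ℝ) ^ 2 := by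
    push_cast
    ring
  rw [h5] at h3
  have h6 : 0 < 1 / (p : ℝ) ^ 2 := by positivity
  linarith

theorem walk_up (hs : 0 < s0) (ht : Tgt r u κ) (hP : 100 ≤ P0) (hsm : Small r P0) {p : ℕ}
    (hp : P0 ≤ p) (hmod : p % 4 = r % 4) {T : ℝ} (hpr : 2 * p + 4 ≤ r)
    (hT1 : 1 / (2 * (p : ℝ) ^ 2) ≤ T) (hT2 : T ≤ 18 / (5 * (p : ℝ) ^ 2))
    (hCr : 18 / (5 * (p : ℝ) ^ 2) ≤ 1 / (32 * (r : ℝ))) (h : RV s0 κ p T) :
    ∃ P, p ≤ P ∧ P ≤ 2 * p + 4 ∧ P % 4 = r % 4 ∧ RV s0 κ P T ∧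
      2 / (P : ℝ) ^ 2 ≤ T ∧ T ≤ 18 / (5 * (P : ℝ) ^ 2) := by
  classical
  have hp100 : (100 : ℝ) ≤ p := by exact_mod_cast (show 100 ≤ p by omega)
  have hp0 : (0 : ℝ) < p := by linarith
  have hT0 : 0 < T := lt_of_lt_of_le (by positivity) hT1
  rw [div_le_iff₀ (by positivity)] at hT1
  rw [le_div_iff₀ (by positivity)] at hT2
  have hex : ∃ i : ℕ, 2 ≤ T * ((p + 4 * i : ℕ) : ℝ) ^ 2 := by
    refine ⟨p / 4 + 1, ?_⟩
    have h1 : 2 * p ≤ p + 4 * (p / 4 + 1) := by omega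
    have h2 : (2 * (p : ℝ)) ≤ ((p + 4 * (p / 4 + 1) : ℕ) : ℝ) := by exact_mod_cast h1
    have h3 := pow_le_pow_left₀ (by positivity) h2 2
    nlinarith [mul_le_mul_of_nonneg_left h3 hT0.le]
  obtain ⟨i, hi, hmin⟩ : ∃ i : ℕ, 2 ≤ T * ((p + 4 * i : ℕ) : ℝ) ^ 2 ∧
      ∀ j < i, ¬ 2 ≤ T * ((p + 4 * j : ℕ) : ℝ) ^ 2 :=
    ⟨Nat.find hex, Nat.find_spec hex, fun j hj => Nat.find_min hex hj⟩
  have hip : i ≤ p / 4 + 1 := by
    by_contra hcon
    refine hmin (p / 4 + 1) (by omega) ?_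
    have h1 : 2 * p ≤ p + 4 * (p / 4 + 1) := by omega
    have h2 : (2 * (p : ℝ)) ≤ ((p + 4 * (p / 4 + 1) : ℕ) : ℝ) := by exact_mod_cast h1
    have h3 := pow_le_pow_left₀ (by positivity) h2 2
    nlinarith [mul_le_mul_of_nonneg_left h3 hT0.le]
  have hTr : |T| ≤ 1 / (32 * (r : ℝ)) := by
    rw [abs_of_pos hT0]
    refine le_trans ?_ hCr
    rw [le_div_iff₀ (by positivity)]
    exact hT2
  have hz0 : (0 : ℝ) < ((p + 4 * i : ℕ) : ℝ) := by
    exact_mod_cast (show 0 < p + 4 * i by omega)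
  refine ⟨p + 4 * i, by omega, by omega, by omega,
    RV.steps hs ht hP hsm hp hmod hTr h i (by omega), ?_, ?_⟩
  · rw [div_le_iff₀ (by positivity)]
    exact hi
  · rw [le_div_iff₀ (by positivity)]
    rcases Nat.eq_zero_or_pos i with rfl | h0
    · simpa using hT2
    · have h1 := hmin (i - 1) (by omega)
      push Not at h1
      have h2 : ((p + 4 * (i - 1) : ℕ) : ℝ) = ((p + 4 * i : ℕ) : ℝ) - 4 := by
        have : p + 4 * i = p + 4 * (i - 1) + 4 := by omega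
        rw [this]
        push_cast
        ring
      rw [h2] at h1
      have h3 : (104 : ℝ) ≤ ((p + 4 * i : ℕ) : ℝ) := by
        have : 104 ≤ p + 4 * i := by omega
        exact_mod_cast this
      obtain ⟨z, hz⟩ : ∃ z : ℝ, z = ((p + 4 * i : ℕ) : ℝ) := ⟨_, rfl⟩
      rw [← hz] at h1 h3 ⊢
      have h4 : 5 * z ^ 2 ≤ 9 * (z - 4) ^ 2 := by nlinarith
      nlinarith [mul_le_mul_of_nonneg_left h4 hT0.le]

theorem settle (hs : 0 < s0) (ht : Tgt r u κ) (hP : 1000 ≤ P0) (hsm : Small r P0) {p : ℕ}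
    (hp : P0 ≤ p) (hmod : p % 4 = r % 4) {T : ℝ} (hpr : 3 * p ≤ r)
    (hT1 : 1 / (2 * (p : ℝ) ^ 2) ≤ T) (hT2 : T ≤ 9 / (2 * (p : ℝ) ^ 2))
    (hCr : 9 / (2 * (p : ℝ) ^ 2) ≤ 1 / (32 * (r : ℝ))) (h : RV s0 κ p T) :
    ∃ P T', p ≤ P ∧ P ≤ 3 * p ∧ P % 4 = r % 4 ∧ RV s0 κ P T' ∧
      2 / (P : ℝ) ^ 2 ≤ T' ∧ T' ≤ 18 / (5 * (P : ℝ) ^ 2) := by
  have hp1000 : (1000 : ℝ) ≤ p := by exact_mod_cast (show 1000 ≤ p by omega)
  have hp0 : (0 : ℝ) < p := by linarith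
  have hT0 : 0 < T := lt_of_lt_of_le (by positivity) hT1
  have hle : ∀ z : ℝ, (p : ℝ) ≤ z → 18 / (5 * z ^ 2) ≤ 1 / (32 * (r : ℝ)) := by
    intro z hz
    have hz0 : 0 < z := by linarith
    refine le_trans ?_ hCr
    rw [div_le_div_iff₀ (by positivity) (by positivity)]
    have := pow_le_pow_left₀ hp0.le hz 2
    nlinarith
  by_cases hc : T ≤ 18 / (5 * (p : ℝ) ^ 2)
  · obtain ⟨P, h1, h2, h3, h4, h5, h6⟩ := walk_up hs ht (by omega) hsm hp hmod (by omega) hT1 hc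
      (hle p le_rfl) h
    exact ⟨P, T, h1, by omega, h3, h4, h5, h6⟩
  · push Not at hc
    have hTr : |T| ≤ 1 / (32 * (r : ℝ)) := by
      rw [abs_of_pos hT0]
      exact hT2.trans hCr
    obtain ⟨i, hi⟩ : ∃ i, i = p / 20 + 1 := ⟨_, rfl⟩
    have h1 := RV.steps hs ht (by omega) hsm hp hmod hTr h i (by omega)
    have h2 := RV.stepA hs ht (by omega) hsm (p := p + 4 * i) (by omega) (by omega) (by omega)
      hTr h1
    obtain ⟨z, hz⟩ : ∃ z : ℝ, z = ((p + 4 * i : ℕ) : ℝ) := ⟨_, rfl⟩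
    rw [← hz] at h2
    have hz1 : 6 / 5 * (p : ℝ) ≤ z := by
      rw [hz]
      have : 6 * p ≤ 5 * (p + 4 * i) := by omega
      have h3 : ((6 * p : ℕ) : ℝ) ≤ ((5 * (p + 4 * i) : ℕ) : ℝ) := by exact_mod_cast this
      push_cast at h3 ⊢
      linarith
    have hz2 : z ≤ 6 / 5 * (p : ℝ) + 4 := by
      rw [hz]
      have : 5 * (p + 4 * i) ≤ 6 * p + 20 := by omega
      have h3 : ((5 * (p + 4 * i) : ℕ) : ℝ) ≤ ((6 * p + 20 : ℕ) : ℝ) := by exact_mod_cast this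
      push_cast at h3 ⊢
      linarith
    obtain ⟨hg1, hg2⟩ := G0_bounds (y := z + 3) (by linarith)
    have hz0 : 0 < z := by linarith
    have e8 : ((p + 4 * i + 8 : ℕ) : ℝ) = z + 8 := by
      rw [hz]
      push_cast
      ring
    rw [div_lt_iff₀ (by positivity)] at hc
    rw [le_div_iff₀ (by positivity)] at hT2
    rw [div_le_iff₀ (by positivity)] at hg1
    rw [le_div_iff₀ (by positivity)] at hg2
    obtain ⟨G, hG⟩ : ∃ G, G = Gk 0 (z + 3) := ⟨_, rfl⟩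
    rw [← hG] at hg1 hg2 h2
    have hG0 : 0 < G := by
      by_contra hcon
      push Not at hcon
      nlinarith [sq_nonneg (z + 3 + 4)]
    have hlow : 1 / 2 ≤ (T - G) * (z + 8) ^ 2 := by
      have h3 : G * z ^ 2 ≤ 4 := by nlinarith
      have h4 : 36 / 25 * (p : ℝ) ^ 2 ≤ z ^ 2 := by
        have := pow_le_pow_left₀ (by positivity) hz1 2
        nlinarith
      have h5 : 5 ≤ T * z ^ 2 := by nlinarith
      have h6 : 1 ≤ (T - G) * z ^ 2 := by nlinarith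
      have h7 : 0 < T - G := by
        by_contra hcon
        push Not at hcon
        nlinarith [sq_nonneg z]
      nlinarith
    have hhigh : (T - G) * (z + 8) ^ 2 ≤ 18 / 5 := by
      have h4 : (z + 8) ^ 2 ≤ 3 / 2 * (p : ℝ) ^ 2 := by
        have h5 : z + 8 ≤ 61 / 50 * (p : ℝ) := by linarith
        have := pow_le_pow_left₀ (by positivity) h5 2
        nlinarith
      have h6 : T * (z + 8) ^ 2 ≤ 27 / 4 := by nlinarith
      have h7 : 99 / 100 * (z + 8) ^ 2 ≤ (z + 3 + 4) ^ 2 := by nlinarith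
      have h8 : 396 / 100 ≤ G * (z + 8) ^ 2 := by nlinarith
      nlinarith
    have hle' : (18 : ℝ) / (5 * ((p + 4 * i + 8 : ℕ) : ℝ) ^ 2) ≤ 1 / (32 * (r : ℝ)) := by
      rw [e8]
      exact hle (z + 8) (by linarith)
    obtain ⟨P, h3, h4, h5, h6, h7, h8⟩ := walk_up hs ht (by omega) hsm (p := p + 4 * i + 8)
      (by omega) (by omega) (by omega) (T := T - G) (by
        rw [e8, div_le_iff₀ (by positivity)]
        linarith) (by
        rw [e8, le_div_iff₀ (by positivity)]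
        linarith) hle' h2
    exact ⟨P, T - G, by omega, by omega, h5, h6, h7, h8⟩

theorem main_ind {P K : ℕ} (hs : 0 < s0) (ht : Tgt r u κ) (hP : 100 ≤ P) (hsm : Small r P)
    (hmod : P % 4 = r % 4) (hth : ∀ k ≤ K, 10 * ((k + 2) * (3 + shS k)) ≤ P)
    (hr : 5 ^ (K + 1) * P ≤ r) (hbud : 4 * ((K : ℝ) + 2) / (P : ℝ) ^ 2 ≤ 1 / (32 * (r : ℝ)))
    {T : ℝ} (hT : RV s0 κ P T) (hT1 : wl 0 P ≤ T) (hT2 : T ≤ wu 0 P) :
    ∃ σ T', Up s0 σ ∧ Real.log σ = Real.log u - 2 * T' ∧ 0 < T' ∧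
      T' ≤ wu (K + 1) (5 ^ (K + 1) * (P : ℝ)) := by
  have hPR : (0 : ℝ) < P := by exact_mod_cast (show 0 < P by omega)
  have hmodk : ∀ k : ℕ, (5 ^ k * P) % 4 = r % 4 := by
    intro k
    have h : 5 ^ k % 4 = 1 := by
      rw [Nat.pow_mod]
      norm_num
    rw [Nat.mul_mod, h, one_mul, Nat.mod_mod, hmod]
  have hG0 : Gk 0 P ≤ 4 / (P : ℝ) ^ 2 := (G0_bounds hPR).2
  have hwu0 : wu 0 P ≤ 4 / (P : ℝ) ^ 2 := by
    unfold wu
    have h2 : (P : ℝ) ^ (0 + 2) = (P : ℝ) ^ 2 := rfl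
    rw [ck_zero, h2, div_le_div_iff₀ (by positivity) (by positivity)]
    nlinarith [pow_pos hPR 2]
  have hwl0 : ∀ k (x : ℝ), 0 < x → 0 < wl k x := by
    intro k x hx
    unfold wl
    have := ck_pos k
    positivity
  have key : ∀ k ≤ K + 1, ∃ T', RV s0 κ (5 ^ k * P) T' ∧ wl k (5 ^ k * (P : ℝ)) ≤ T' ∧
      T' ≤ wu k (5 ^ k * (P : ℝ)) ∧ T' ≤ 4 / (P : ℝ) ^ 2 := by
    intro k
    induction k with
    | zero =>
      intro _
      refine ⟨T, by simpa using hT, by simpa using hT1, by simpa using hT2, hT2.trans hwu0⟩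
    | succ k ih =>
      intro hk
      obtain ⟨T', h1, h2, h3, h4⟩ := ih (by omega)
      have h5 := hth k (by omega)
      have h6 : P ≤ 5 ^ k * P := Nat.le_mul_of_pos_left P (by positivity)
      have hSk : shS k + 10 ≤ P := by
        have : 1 * (3 + shS k) ≤ (k + 2) * (3 + shS k) := Nat.mul_le_mul_right _ (by omega)
        omega
      have h7 : ((5 ^ k * P : ℕ) : ℝ) = 5 ^ k * (P : ℝ) := by push_cast; ring
      obtain ⟨i, hi1, hi2, hi3⟩ := stage k (5 ^ k * P) (h5.trans h6) (T := T')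
        (by rw [h7]; exact h2) (by rw [h7]; exact h3)
      have h8 : 5 ^ (k + 1) * P = 5 * (5 ^ k * P) := by ring
      have h8' : (5 : ℝ) ^ (k + 1) * P = 5 * (5 ^ k * P) := by ring
      have h9 : 5 ^ (k + 1) * P ≤ r :=
        (Nat.mul_le_mul_right P (Nat.pow_le_pow_right (by norm_num) hk)).trans hr
      have hT0 : 0 < T' := lt_of_lt_of_le (hwl0 k _ (by positivity)) h2
      have hkK : (k : ℝ) ≤ K := by exact_mod_cast (show k ≤ K by omega)
      have h10 := (RV.gad hs ht hP hsm k).1 (5 ^ k * P) (5 ^ k * P + 3 + 4 * i)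
        (5 ^ (k + 1) * P) T'
        h6 (hmodk k) (hmodk (k + 1)) (by omega) (by
          have := hmodk k
          omega) (by omega) h9 (by
          rw [abs_of_pos hT0]
          refine le_trans ?_ hbud
          have h11 : (k + 1) * Gk 0 P ≤ (K + 1) * (4 / (P : ℝ) ^ 2) :=
            mul_le_mul (by linarith) hG0 (Gk_pos 0 hPR).le (by positivity)
          have h12 : 4 * ((K : ℝ) + 2) / (P : ℝ) ^ 2 =
              4 / (P : ℝ) ^ 2 + (K + 1) * (4 / (P : ℝ) ^ 2) := by ring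
          rw [h12]
          linarith) h1
      have hy : (0 : ℝ) < ((5 ^ k * P + 3 + 4 * i : ℕ) : ℝ) := by positivity
      have h13 := Gk_pos k hy
      refine ⟨_, h10, ?_, ?_, by linarith⟩
      · rw [h8', ← h7]
        exact hi2
      · rw [h8', ← h7]
        exact hi3
  obtain ⟨T', h1, h2, h3, h4⟩ := key (K + 1) le_rfl
  have hT0 : 0 < T' := lt_of_lt_of_le (hwl0 (K + 1) _ (by positivity)) h2
  have h5 : P ≤ 5 ^ (K + 1) * P := Nat.le_mul_of_pos_left P (by positivity)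
  obtain ⟨σ, hσ, hlog⟩ := RV.to hs ht hP hsm h5 (hmodk (K + 1)) rfl (T := T') (by
    rw [abs_of_pos hT0]
    refine h4.trans (le_trans ?_ hbud)
    have h6 : 4 * ((K : ℝ) + 2) / (P : ℝ) ^ 2 =
        4 / (P : ℝ) ^ 2 + (K + 1) * (4 / (P : ℝ) ^ 2) := by ring
    rw [h6]
    have : 0 ≤ ((K : ℝ) + 1) * (4 / (P : ℝ) ^ 2) := by positivity
    linarith) h1 hr le_rfl
  refine ⟨σ, T', hσ, ?_, hT0, h3⟩
  rw [hlog, ht.1]
  ring

end

end Pool.Agent.H932R5
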