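import Mathlib
import Pool.Agent.H15.G.R_seed8.H932R5.Phases

set_option autoImplicit false

/-!
# General points
-/

namespace Pool.Agent.H932R5

open MvPolynomial

variable {K : Type*} [Field K] {E n : ℕ}

/-- No nonzero polynomial of degree at most `d` vanishes at the fat points. -/
def EmptyAt (w : Fin n → ℕ) (P : Fin n → Fin (E + 1) → K) (d : ℕ) : Prop :=
  ∀ f ∈ Z w P, (∀ α, coeff α f ≠ 0 → α ∈ Td E d) → f = 0

/-- The fat points impose independent conditions on polynomials of degree at most `d`. -/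
def SurjAt (w : Fin n → ℕ) (P : Fin n → Fin (E + 1) → K) (d : ℕ) : Prop :=
  ∀ y : Cnd E w → K, ∃ f ∈ mspan K (Td E d), cnd w P f = y

theorem EmptyAt.finrank {w : Fin n → ℕ} {P : Fin n → Fin (E + 1) → K} {d : ℕ}
    (h : EmptyAt w P d) : Module.finrank K ↥(Vd d w P) = 0 := finrank_of_full h

theorem finrank_aux (d : ℕ) (w : Fin n → ℕ) (P : Fin n → Fin (E + 1) → K) :
    ∃ a, a ≤ ∑ i, (w i + E).choose (E + 1) ∧
      (SurjAt w P d → a = ∑ i, (w i + E).choose (E + 1)) ∧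
      a + Module.finrank K ↥(Vd d w P) = (d + E + 1).choose (E + 1) := by
  classical
  rw [finrank_Vd_eq]
  unfold SurjAt
  rw [← coe_dg]
  have hfin := finite_mspan (K := K) (dg E (d + 1))
  let L : ↥(mspan K (↑(dg E (d + 1)) : Set (Fin (E + 1) →₀ ℕ))) →ₗ[K] (Cnd E w → K) :=
    (cnd w P).comp (Submodule.subtype _)
  have hL : ∀ f, L f = cnd w P f.1 := fun _ => rfl
  have h1 := LinearMap.finrank_range_add_finrank_ker L
  rw [finrank_mspan, card_dg] at h1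
  have h3 : Module.finrank K (LinearMap.ker L) = Module.finrank K
      ↥(mspan K (↑(dg E (d + 1)) : Set (Fin (E + 1) →₀ ℕ)) ⊓
        Submodule.restrictScalars K (Z w P)) := by
    refine LinearEquiv.finrank_eq (LinearEquiv.ofBijective
      { toFun := fun f => ⟨f.1.1, Submodule.mem_inf.2 ⟨f.1.2, mem_Z_iff.2 f.2⟩⟩
        map_add' := fun f g => rfl
        map_smul' := fun a f => rfl } ⟨?_, ?_⟩)
    · intro f g hfg
      have h : f.1.1 = g.1.1 :=
        congrArg (fun z : ↥(mspan K (↑(dg E (d + 1)) : Set (Fin (E + 1) →₀ ℕ)) ⊓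
          Submodule.restrictScalars K (Z w P)) => (z : MvPolynomial (Fin (E + 1)) K)) hfg
      exact Subtype.ext (Subtype.ext h)
    · rintro ⟨f, hf⟩
      rw [Submodule.mem_inf] at hf
      exact ⟨⟨⟨f, hf.1⟩, mem_Z_iff.1 hf.2⟩, rfl⟩
  have e : d + 1 + E = d + E + 1 := by ring
  rw [h3, e] at h1
  refine ⟨_, ?_, fun hs => ?_, h1⟩
  · refine (Submodule.finrank_le _).trans ?_
    rw [Module.finrank_fintype_fun_eq_card, card_Cnd]
  · have h2 : LinearMap.range L = ⊤ := by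
      rw [LinearMap.range_eq_top]
      intro y
      obtain ⟨f, hf, hfy⟩ := hs y
      exact ⟨⟨f, hf⟩, hfy⟩
    rw [h2, finrank_top, Module.finrank_fintype_fun_eq_card, card_Cnd]

theorem SurjAt.finrank {w : Fin n → ℕ} {P : Fin n → Fin (E + 1) → K} {d : ℕ}
    (h : SurjAt w P d) : ∑ i, (w i + E).choose (E + 1) + Module.finrank K ↥(Vd d w P) =
      (d + E + 1).choose (E + 1) := by
  obtain ⟨a, _, h2, h3⟩ := finrank_aux d w P
  rw [← h2 h]
  exact h3

theorem finrank_ge (d : ℕ) (w : Fin n → ℕ) (P : Fin n → Fin (E + 1) → K) :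
    (d + E + 1).choose (E + 1) ≤
      ∑ i, (w i + E).choose (E + 1) + Module.finrank K ↥(Vd d w P) := by
  obtain ⟨a, h1, _, h3⟩ := finrank_aux d w P
  omega

theorem SurjAt.of_zero {w : Fin n → ℕ} (hw : ∀ i, w i = 0) (P : Fin n → Fin (E + 1) → K)
    (d : ℕ) : SurjAt w P d := by
  intro y
  refine ⟨0, Submodule.zero_mem _, ?_⟩
  funext q
  exfalso
  exact Nat.not_lt_zero _ (lt_of_lt_of_eq (mem_dg.1 q.2.2) (hw q.1))

theorem SurjAt.mono_d {w : Fin n → ℕ} {P : Fin n → Fin (E + 1) → K} {d d' : ℕ} (hd : d ≤ d')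
    (h : SurjAt w P d) : SurjAt w P d' := by
  intro y
  obtain ⟨f, hf, hfy⟩ := h y
  refine ⟨f, mspan_mono (fun s hs => ?_) hf, hfy⟩
  have hs : Finsupp.degree s ≤ d := hs
  exact hs.trans hd

theorem SurjAt.mono_w {w w' : Fin n → ℕ} {P : Fin n → Fin (E + 1) → K} {d : ℕ}
    (hw : ∀ i, w i ≤ w' i) (h : SurjAt w' P d) : SurjAt w P d := by
  classical
  intro y
  let y' : Cnd E w' → K := fun q =>
    if h : q.2.1 ∈ dg E (w q.1) then y ⟨q.1, ⟨q.2.1, h⟩⟩ else 0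
  obtain ⟨f, hf, hfy⟩ := h y'
  refine ⟨f, hf, ?_⟩
  funext q
  have h1 : q.2.1 ∈ dg E (w' q.1) := mem_dg.2 ((mem_dg.1 q.2.2).trans_le (hw q.1))
  have h2 := congrFun hfy ⟨q.1, ⟨q.2.1, h1⟩⟩
  rw [cnd_apply] at h2 ⊢
  rw [h2]
  show (if h : q.2.1 ∈ dg E (w q.1) then y ⟨q.1, ⟨q.2.1, h⟩⟩ else 0) = y q
  rw [dif_pos q.2.2]

theorem surj_of_li {w : Fin n → ℕ} {P : Fin n → Fin (E + 1) → K} {d N : ℕ}
    (v : Fin N → MvPolynomial (Fin (E + 1)) K) (hv : ∀ i, v i ∈ mspan K (Td E d))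
    (hli : ∀ c : Fin N → K, ∑ i, c i • v i ∈ Z w P → ∀ i, c i = 0)
    (hN : N = ∑ i, (w i + E).choose (E + 1)) : SurjAt w P d := by
  classical
  have hli' : LinearIndependent K (fun i => cnd w P (v i)) := by
    rw [Fintype.linearIndependent_iff]
    intro c hc
    refine hli c ?_
    rw [mem_Z_iff, map_sum, ← hc]
    exact Finset.sum_congr rfl fun i _ => by rw [map_smul]
  have hcard : Fintype.card (Fin N) = Module.finrank K (Cnd E w → K) := by
    rw [Fintype.card_fin, Module.finrank_fintype_fun_eq_card, card_Cnd, hN]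
  have hspan := hli'.span_eq_top_of_card_eq_finrank' hcard
  intro y
  have hy : y ∈ Submodule.span K (Set.range fun i => cnd w P (v i)) := by
    rw [hspan]
    exact Submodule.mem_top
  rw [Submodule.mem_span_range_iff_exists_fun] at hy
  obtain ⟨c, hc⟩ := hy
  refine ⟨∑ i, c i • v i, Submodule.sum_mem _ fun i _ => Submodule.smul_mem _ _ (hv i), ?_⟩
  rw [map_sum, ← hc]
  exact Finset.sum_congr rfl fun i _ => by rw [map_smul]

theorem open_of_full {w : Fin n → ℕ} {d : ℕ} (h : Full K w (Td E d)) :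
    ∃ F : MvPolynomial (Fin n × Fin (E + 1)) K, F ≠ 0 ∧
      ∀ P : Fin n → Fin (E + 1) → K,
        eval (fun q : Fin n × Fin (E + 1) => P q.1 q.2) F ≠ 0 → EmptyAt w P d := by
  classical
  obtain ⟨x, hx⟩ := h
  rw [← coe_dg] at hx
  obtain ⟨F, hF, hF'⟩ := exists_open (w := w)
    (fun i => monomial (enumM (dg E (d + 1)) i) (1 : K)) x (fun c hc i => by
      have h1 := hx _ hc (fun α hα => ?_)
      · have h2 := coeff_sum_enum (dg E (d + 1)) c i
        rw [h1, coeff_zero] at h2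
        exact h2.symm
      · have h3 : ∑ i, c i • (monomial (enumM (dg E (d + 1)) i) (1 : K)) ∈
            mspan K (↑(dg E (d + 1)) : Set (Fin (E + 1) →₀ ℕ)) :=
          Submodule.sum_mem _ fun i _ => Submodule.smul_mem _ _ (Submodule.subset_span
            ⟨_, enumM_mem _ i, rfl⟩)
        exact mem_mspan.1 h3 α hα)
  refine ⟨F, hF, fun P hP f hf hM => ?_⟩
  have h1 : f ∈ mspan K (↑(dg E (d + 1)) : Set (Fin (E + 1) →₀ ℕ)) := by
    rw [coe_dg]
    exact mem_mspan.2 hM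
  rw [mspan_eq_range, Submodule.mem_span_range_iff_exists_fun] at h1
  obtain ⟨c, rfl⟩ := h1
  have h2 := hF' P hP c hf
  exact Finset.sum_eq_zero fun i _ => by rw [h2 i, zero_smul]

theorem open_of_rk {m d : ℕ}
    (h : Rk K (fun _ : Fin n => m) (Td E d) (n * (m + E).choose (E + 1))) :
    ∃ F : MvPolynomial (Fin n × Fin (E + 1)) K, F ≠ 0 ∧
      ∀ P : Fin n → Fin (E + 1) → K,
        eval (fun q : Fin n × Fin (E + 1) => P q.1 q.2) F ≠ 0 →
          SurjAt (fun _ : Fin n => m) P d := by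
  obtain ⟨x, v, hv, hli⟩ := h
  obtain ⟨F, hF, hF'⟩ := exists_open (w := fun _ : Fin n => m) v x hli
  refine ⟨F, hF, fun P hP => surj_of_li v hv (hF' P hP) ?_⟩
  rw [Finset.sum_const, Finset.card_univ, Fintype.card_fin, smul_eq_mul]

/-- The numerical constants. -/
theorem exists_consts (E Q : ℕ) : ∃ N : ℕ, 1 ≤ N ∧ ∀ n : ℕ, N ≤ n → ∀ L : ℝ, 0 < L →
    L ^ (E + 1) = n → 1 ≤ L ∧ ∃ μ ν : ℝ, 1 ≤ μ ∧ 0 < ν ∧ ν ≤ 1 ∧ μ ^ E < 1 + 1 / (n : ℝ) ^ Q ∧
      1 ≤ (1 + 1 / (n : ℝ) ^ Q) * ν ^ E ∧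
      (∀ E t : ℕ, t < E → ∃ σ, Up (L ^ (E - 1 - t)) σ ∧ σ ≤ L ^ (E + 1 - t) ∧
        Real.sqrt (L ^ (E + 1 - t) / σ) ≤ μ) ∧
      (∀ E t : ℕ, t < E → ∃ σ, Up (L ^ (E - 1 - t)) σ ∧ σ ≤ L ^ (E + 1 - t) ∧
        ν ≤ Real.sqrt (σ / L ^ (E + 1 - t))) := by
  obtain ⟨N0, hN01, hN0⟩ := exists_ratio ((E + 1) * Q + 1)
  obtain ⟨N1, hN1⟩ := exists_nat_ge ((N0 + 2 ^ (E + 2) + 2 * E + 2) ^ (E + 1))
  refine ⟨N1 + 1, by omega, fun n hn L hL0 hL => ?_⟩
  have hLN : N0 + 2 ^ (E + 2) + 2 * E + 2 ≤ L := by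
    by_contra hcon
    push Not at hcon
    have h1 : L ^ (E + 1) < (N0 + 2 ^ (E + 2) + 2 * E + 2) ^ (E + 1) :=
      pow_lt_pow_left₀ hcon hL0.le (by omega)
    have h2 : ((N1 + 1 : ℕ) : ℝ) ≤ n := by exact_mod_cast hn
    push_cast at h2
    rw [hL] at h1
    linarith
  have hE2 : (0 : ℝ) < 2 ^ (E + 2) := by positivity
  have hE0 : (0 : ℝ) ≤ E := Nat.cast_nonneg E
  have hL1 : 1 ≤ L := by linarith
  have hrat := hN0 L (by linarith)
  have hLk : L ^ ((E + 1) * Q + 1) = (n : ℝ) ^ Q * L := by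
    rw [pow_succ, pow_mul, hL]
  have hn0 : (0 : ℝ) < n := by rw [← hL]; positivity
  have hn1 : (1 : ℝ) ≤ n := by rw [← hL]; exact one_le_pow₀ hL1
  obtain ⟨a, ha⟩ : ∃ a : ℝ, a = (n : ℝ) ^ Q := ⟨_, rfl⟩
  have ha1 : 1 ≤ a := by rw [ha]; exact one_le_pow₀ hn1
  have ha0 : 0 < a := by linarith
  rw [hLk] at hrat
  rw [← ha] at hrat ⊢
  have haL : 0 < a * L := by positivity
  have hpow : ∀ (x : ℝ) (e : ℕ), 0 ≤ x → x ≤ 1 → (1 + x) ^ e ≤ 1 + 2 ^ e * x := by
    intro x e hx0 hx1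
    have hs : (1 + x) ^ e ≤ 1 + (2 ^ e - 1) * x := by
      induction e with
      | zero => simp
      | succ e ih =>
        rw [pow_succ]
        have h1 : (1 + x) ^ e * (1 + x) ≤ (1 + (2 ^ e - 1) * x) * (1 + x) :=
          mul_le_mul_of_nonneg_right ih (by linarith)
        refine h1.trans ?_
        have h2 : (1 : ℝ) ≤ 2 ^ e := one_le_pow₀ (by norm_num)
        have h3 : (2 : ℝ) ^ (e + 1) = 2 * 2 ^ e := by ring
        rw [h3]
        have h4 : (2 ^ e - 1) * x * x ≤ (2 ^ e - 1) * x * 1 :=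
          mul_le_mul_of_nonneg_left hx1 (mul_nonneg (by linarith) hx0)
        nlinarith
    have h5 : (0 : ℝ) < 2 ^ e := by positivity
    nlinarith
  have haL1 : 1 ≤ a * L := by nlinarith
  have h4E : (4 : ℝ) ≤ 2 ^ (E + 2) := by
    have h1 : (1 : ℝ) ≤ 2 ^ E := one_le_pow₀ (by norm_num)
    have h2 : (2 : ℝ) ^ (E + 2) = 4 * 2 ^ E := by ring
    linarith
  have haL4 : 4 ≤ a * L :=
    le_trans (by linarith : (4 : ℝ) ≤ L) (le_mul_of_one_le_left hL0.le ha1)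
  refine ⟨hL1, 1 + 2 / (a * L), 1 - 1 / (a * L), ?_, ?_, ?_, ?_, ?_, ?_, ?_⟩
  · have : 0 < 2 / (a * L) := by positivity
    linarith
  · have : 1 / (a * L) ≤ 1 / 4 := one_div_le_one_div_of_le (by norm_num) haL4
    linarith
  · have : 0 < 1 / (a * L) := by positivity
    linarith
  · have h1 := hpow (2 / (a * L)) E (by positivity) (by
      rw [div_le_one haL]
      linarith)
    refine lt_of_le_of_lt h1 ?_
    have h2 : (2 : ℝ) ^ E * (2 / (a * L)) < 1 / a := by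
      rw [mul_div_assoc', div_lt_div_iff₀ haL ha0]
      have h3 : (2 : ℝ) ^ (E + 2) = 4 * 2 ^ E := by ring
      have h4 : (0 : ℝ) < 2 ^ E := by positivity
      nlinarith
    linarith
  · have h1 : 1 + (E : ℝ) * (-(1 / (a * L))) ≤ (1 + -(1 / (a * L))) ^ E := by
      refine one_add_mul_le_pow ?_ E
      have : 1 / (a * L) ≤ 1 := by
        rw [div_le_one haL]
        exact haL1
      linarith
    have h2 : (1 + -(1 / (a * L))) = 1 - 1 / (a * L) := by ring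
    rw [h2] at h1
    have h3 : (1 : ℝ) ≤ (1 + 1 / a) * (1 + (E : ℝ) * (-(1 / (a * L)))) := by
      have e : (1 + 1 / a) * (1 + (E : ℝ) * (-(1 / (a * L)))) =
          1 + (a * L - E * a - E) / (a * (a * L)) := by
        field_simp
        ring
      rw [e]
      have : 0 ≤ (a * L - E * a - E) / (a * (a * L)) := by
        refine div_nonneg ?_ (by positivity)
        have h4 : 2 * E ≤ L := by linarith
        nlinarith
      linarith
    exact h3.trans (mul_le_mul_of_nonneg_left h1 (by positivity))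
  · intro E t ht
    obtain ⟨σ, h1, h2, h3, _⟩ := hrat E t ht
    exact ⟨σ, h1, h2, h3⟩
  · intro E t ht
    obtain ⟨σ, h1, h2, _, h4⟩ := hrat E t ht
    exact ⟨σ, h1, h2, h4⟩

end Pool.Agent.H932R5
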